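import Pool.Agent.H72.Dc.Cor
import Pool.Agent.H72.Dc.Asy

/-!
# The determinantal complexity of the permanent
-/

set_option autoImplicit false

namespace Pool.Agent.H72.Dc

open MvPolynomial Finset
open Pool.Agent.H10.PerSL (perPoly)
open Pool.Agent.H61.BD (DetLE BorderDetLE)

universe u

theorem specializes_C {k : Type u} [Field k] (a : k) :
    Pool.Agent.H53.AC.SpecializesTo (RatFunc.C a) a := by
  refine ⟨Polynomial.C a, 1, ?_, ?_, ?_⟩
  · simp
  · simp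
  · simp

theorem DetLE.toBorder {k : Type u} [Field k] {σ : Type*} {f : MvPolynomial σ k} {s : ℕ}
    (h : DetLE f s) : BorderDetLE f s := by
  obtain ⟨A, hA, hdet⟩ := h
  refine ⟨map (RatFunc.C : k →+* RatFunc k) f, fun m => ?_,
    (map (RatFunc.C : k →+* RatFunc k)).mapMatrix A, fun i j => ?_, ?_⟩
  · rw [coeff_map]
    exact specializes_C _
  · refine le_trans ?_ (hA i j)
    exact Pool.Agent.H72.Bp.Sub.totalDegree_map_le _ _
  · rw [← RingHom.map_det, hdet]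

theorem final (ε : ℝ) (hε : 0 < ε) : ∃ n₀ : ℕ, ∀ n ≥ n₀, ∀ (k : Type u) [Field k] [CharZero k]
    (s : ℕ), DetLE (perPoly n k) s ∨ BorderDetLE (perPoly n k) s → (n : ℝ) ^ (3 - ε) ≤ s := by
  obtain ⟨n₀, h⟩ := asy2 ε hε
  refine ⟨n₀, fun n hn k _ _ s hs => ?_⟩
  obtain ⟨r, h', d, h1, h2, h3, h5, h6, h7⟩ := h n hn
  obtain ⟨cnt, g1, g2⟩ := core h1 h2 h3 h5 h6 k s (hs.elim DetLE.toBorder id)
  exact h7 s cnt g1 g2

end Pool.Agent.H72.Dc
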