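import Mathlib

/-!
# Derivatives of determinants and matrices of corank one
-/

set_option autoImplicit false

namespace Pool.Agent.H72.Dc

open Finset Matrix

universe u v w

section der

variable {K : Type u} {R : Type v} [CommRing K] [CommRing R] [Algebra K R]
variable {n : Type w} [Fintype n] [DecidableEq n]

theorem der_prod (D : Derivation K R R) {ι : Type*} [DecidableEq ι] (s : Finset ι) (f : ι → R) :
    D (∏ i ∈ s, f i) = ∑ i ∈ s, D (f i) * ∏ j ∈ s.erase i, f j := by
  induction s using Finset.induction_on with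
  | empty => simp
  | insert a s ha ih =>
    rw [Finset.prod_insert ha, Derivation.leibniz, ih, Finset.sum_insert ha,
      Finset.erase_insert ha]
    simp only [smul_eq_mul]
    rw [add_comm, Finset.mul_sum]
    congr 1
    · ring
    · refine Finset.sum_congr rfl fun i hi => ?_
      have hia : i ≠ a := fun h => ha (h ▸ hi)
      rw [Finset.erase_insert_of_ne hia.symm, Finset.prod_insert (by
        intro h; exact ha (Finset.mem_of_mem_erase h))]
      ring

/-- The derivative of a determinant. -/
theorem der_det (D : Derivation K R R) (M : Matrix n n R) :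
    D M.det = ∑ i, ∑ j, M.adjugate i j * D (M j i) := by
  have h1 : ∀ i, ∑ j, M.adjugate i j * D (M j i) = (M.updateCol i fun j => D (M j i)).det := by
    intro i
    have := Matrix.cramer_apply M (fun j => D (M j i)) i
    rw [← this, Matrix.cramer_eq_adjugate_mulVec]
    rfl
  rw [Finset.sum_congr rfl fun i _ => h1 i]
  rw [Matrix.det_apply', map_sum]
  have h2 : ∀ i, (M.updateCol i fun j => D (M j i)).det =
      ∑ σ : Equiv.Perm n, ((Equiv.Perm.sign σ : ℤ) : R) *
        (D (M (σ i) i) * ∏ j ∈ univ.erase i, M (σ j) j) := by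
    intro i
    rw [Matrix.det_apply']
    refine Finset.sum_congr rfl fun σ _ => ?_
    congr 1
    rw [← Finset.mul_prod_erase univ _ (mem_univ i), Matrix.updateCol_self]
    congr 1
    refine Finset.prod_congr rfl fun j hj => ?_
    rw [Matrix.updateCol_ne (Finset.ne_of_mem_erase hj)]
  rw [Finset.sum_congr rfl fun i _ => h2 i, Finset.sum_comm]
  refine Finset.sum_congr rfl fun σ _ => ?_
  have h3 : ((Equiv.Perm.sign σ : ℤ) : R) * ∏ i, M (σ i) i =
      (Equiv.Perm.sign σ : ℤ) • ∏ i, M (σ i) i := by rw [zsmul_eq_mul]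
  rw [h3, map_zsmul, der_prod, zsmul_eq_mul, Finset.mul_sum]

/-- The derivative of a matrix. -/
def dM (D : Derivation K R R) (M : Matrix n n R) : Matrix n n R := Matrix.of fun i j => D (M i j)

omit [DecidableEq n] in
theorem dM_mul (D : Derivation K R R) (M N : Matrix n n R) :
    dM D (M * N) = dM D M * N + M * dM D N := by
  ext i j
  simp only [dM, Matrix.of_apply, Matrix.mul_apply, Matrix.add_apply, map_sum, Derivation.leibniz,
    smul_eq_mul, ← Finset.sum_add_distrib]
  refine Finset.sum_congr rfl fun k _ => ?_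
  ring

omit [Fintype n] in
theorem dM_smul_one (D : Derivation K R R) (r : R) :
    dM D (r • (1 : Matrix n n R)) = D r • (1 : Matrix n n R) := by
  ext i j
  simp only [dM, Matrix.of_apply, Matrix.smul_apply, Matrix.one_apply, smul_eq_mul]
  split_ifs <;> simp

theorem dM_adj_right (D : Derivation K R R) (M : Matrix n n R) :
    dM D M * M.adjugate + M * dM D M.adjugate = D M.det • (1 : Matrix n n R) := by
  rw [← dM_mul, Matrix.mul_adjugate, dM_smul_one]

theorem dM_adj_left (D : Derivation K R R) (M : Matrix n n R) :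
    dM D M.adjugate * M + M.adjugate * dM D M = D M.det • (1 : Matrix n n R) := by
  rw [← dM_mul, Matrix.adjugate_mul, dM_smul_one]

end der

/-! ### Corank one -/

section corank

variable {K : Type u} [Field K] {n : Type w} [Fintype n] [DecidableEq n]

theorem ker_zero {M : Matrix n n K} {i j : n} (h : M.adjugate j i ≠ 0) {x : n → K}
    (hx : M.mulVec x = 0) (hxj : x j = 0) : x = 0 := by
  have h1 : (M.updateRow i (Pi.single j 1)).det ≠ 0 := by
    rwa [← Matrix.adjugate_apply]
  by_contra hne
  apply h1
  apply Matrix.exists_mulVec_eq_zero_iff.1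
  refine ⟨x, hne, ?_⟩
  funext l
  by_cases hl : l = i
  · subst hl
    rw [Matrix.mulVec, Matrix.updateRow_self]
    simp [hxj]
  · rw [Matrix.mulVec, Matrix.updateRow_ne hl]
    exact congrFun hx l

/-- A square matrix with determinant zero and nonzero adjugate: the kernel is spanned by a
column of the adjugate. -/
theorem ker_span {M : Matrix n n K} (hM : M.det = 0) {i j : n} (h : M.adjugate j i ≠ 0)
    {x : n → K} (hx : M.mulVec x = 0) :
    x = (x j / M.adjugate j i) • fun l => M.adjugate l i := by
  have h1 : M.mulVec (fun l => M.adjugate l i) = 0 := by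
    funext l
    have := congrFun (congrFun (Matrix.mul_adjugate M) l) i
    rw [hM, zero_smul, Matrix.mul_apply] at this
    exact this
  have h2 : x - (x j / M.adjugate j i) • (fun l => M.adjugate l i) = 0 := by
    apply ker_zero h
    · rw [Matrix.mulVec_sub, Matrix.mulVec_smul, hx, h1, smul_zero, sub_zero]
    · simp only [Pi.sub_apply, Pi.smul_apply, smul_eq_mul]
      rw [div_mul_cancel₀ _ h, sub_self]
  exact sub_eq_zero.1 h2

theorem coker_span {M : Matrix n n K} (hM : M.det = 0) {i j : n} (h : M.adjugate j i ≠ 0)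
    {x : n → K} (hx : M.vecMul x = 0) :
    x = (x i / M.adjugate j i) • fun l => M.adjugate j l := by
  have h1 : Mᵀ.mulVec x = 0 := by
    rw [Matrix.mulVec_transpose]
    exact hx
  have h2 : Mᵀ.adjugate i j ≠ 0 := by
    rw [← Matrix.adjugate_transpose, Matrix.transpose_apply]
    exact h
  have h3 := ker_span (by rw [Matrix.det_transpose, hM]) h2 h1
  rw [← Matrix.adjugate_transpose] at h3
  exact h3

/-- The data of a point of corank one. -/
theorem exists_pq {M : Matrix n n K} (hM : M.det = 0) (h : M.adjugate ≠ 0) :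
    ∃ p q : n → K, p ≠ 0 ∧ q ≠ 0 ∧ M.mulVec p = 0 ∧ M.vecMul q = 0 ∧
      M.adjugate = Matrix.of (fun a b => p a * q b) ∧
      (∀ x, M.mulVec x = 0 → ∃ c : K, x = c • p) ∧ (∀ x, M.vecMul x = 0 → ∃ c : K, x = c • q) := by
  obtain ⟨j, i, hji⟩ : ∃ j i, M.adjugate j i ≠ 0 := by
    by_contra hcon
    push Not at hcon
    exact h (Matrix.ext hcon)
  have hcol : ∀ l, M.mulVec (fun a => M.adjugate a l) = 0 := by
    intro l
    funext m
    have := congrFun (congrFun (Matrix.mul_adjugate M) m) l
    rw [hM, zero_smul, Matrix.mul_apply] at this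
    exact this
  have hrow : ∀ l, M.vecMul (fun a => M.adjugate l a) = 0 := by
    intro l
    funext m
    have := congrFun (congrFun (Matrix.adjugate_mul M) l) m
    rw [hM, zero_smul, Matrix.mul_apply] at this
    exact this
  refine ⟨fun a => M.adjugate a i, fun b => M.adjugate j b / M.adjugate j i, ?_, ?_, hcol i, ?_,
    ?_, ?_, ?_⟩
  · intro h0
    exact hji (congrFun h0 j)
  · intro h0
    have := congrFun h0 i
    simp only [Pi.zero_apply] at this
    rw [div_self hji] at this
    exact one_ne_zero this
  · have : (fun b => M.adjugate j b / M.adjugate j i) =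
        (M.adjugate j i)⁻¹ • fun b => M.adjugate j b := by
      funext b
      simp only [Pi.smul_apply, smul_eq_mul]
      rw [div_eq_inv_mul]
    rw [this, Matrix.smul_vecMul, hrow, smul_zero]
  · ext a b
    rw [Matrix.of_apply]
    have := congrFun (ker_span hM hji (hcol b)) a
    simp only [Pi.smul_apply, smul_eq_mul] at this
    rw [this]
    ring
  · intro x hx
    exact ⟨_, ker_span hM hji hx⟩
  · intro x hx
    refine ⟨x i, ?_⟩
    have := coker_span hM hji hx
    funext b
    rw [congrFun this b]
    simp only [Pi.smul_apply, smul_eq_mul]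
    ring

/-- The tangent computation at a matrix of corank one. -/
theorem tangent {M N Rd : Matrix n n K} {p q p' q' : n → K}
    {ρ : K} (hp : M.mulVec p = 0) (hq : M.vecMul q = 0)
    (hR : M.adjugate = Matrix.of (fun a b => ρ * (p a * q b)))
    (hker : ∀ x, M.mulVec x = 0 → ∃ c : K, x = c • p)
    (hcok : ∀ x, M.vecMul x = 0 → ∃ c : K, x = c • q) (hp0 : p ≠ 0)
    (h1 : N * M.adjugate + M * Rd = 0) (h2 : Rd * M + M.adjugate * N = 0)
    (e1 : N.mulVec p + M.mulVec p' = 0) (e3 : M.vecMul q' + N.vecMul q = 0) :
    ∃ c : K, ∀ a b, Rd a b = ρ * (p' a * q b + p a * q' b) + c * (p a * q b) := by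
  -- the difference
  let U : Matrix n n K := Matrix.of fun a b => Rd a b - ρ * (p' a * q b + p a * q' b)
  have hMU : M * U = 0 := by
    ext a b
    have g1 := congrFun (congrFun h1 a) b
    have g2 := congrFun e1 a
    have g3 := congrFun hp a
    simp only [Matrix.mul_apply, Matrix.add_apply, Matrix.zero_apply, Pi.add_apply, Pi.zero_apply,
      Matrix.mulVec, dotProduct, hR, Matrix.of_apply] at g1 g2 g3
    rw [Matrix.mul_apply, Matrix.zero_apply]
    simp only [U, Matrix.of_apply]
    have e : ∑ j, M a j * (Rd j b - ρ * (p' j * q b + p j * q' b)) =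
        ∑ j, M a j * Rd j b - ρ * q b * ∑ j, M a j * p' j - ρ * q' b * ∑ j, M a j * p j := by
      rw [Finset.mul_sum, Finset.mul_sum, ← Finset.sum_sub_distrib, ← Finset.sum_sub_distrib]
      refine Finset.sum_congr rfl fun j _ => ?_
      ring
    have e' : ∑ j, N a j * (ρ * (p j * q b)) = ρ * q b * ∑ j, N a j * p j := by
      rw [Finset.mul_sum]
      refine Finset.sum_congr rfl fun j _ => ?_
      ring
    rw [e, g3]
    rw [e'] at g1
    linear_combination g1 - ρ * q b * g2
  have hUM : U * M = 0 := by
    ext a b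
    have g1 := congrFun (congrFun h2 a) b
    have g2 := congrFun e3 b
    have g3 := congrFun hq b
    simp only [Matrix.mul_apply, Matrix.add_apply, Matrix.zero_apply, Pi.add_apply, Pi.zero_apply,
      Matrix.vecMul, dotProduct, hR, Matrix.of_apply] at g1 g2 g3
    rw [Matrix.mul_apply, Matrix.zero_apply]
    simp only [U, Matrix.of_apply]
    have e : ∑ j, (Rd a j - ρ * (p' a * q j + p a * q' j)) * M j b =
        ∑ j, Rd a j * M j b - ρ * p' a * ∑ j, q j * M j b - ρ * p a * ∑ j, q' j * M j b := by
      rw [Finset.mul_sum, Finset.mul_sum, ← Finset.sum_sub_distrib, ← Finset.sum_sub_distrib]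
      refine Finset.sum_congr rfl fun j _ => ?_
      ring
    have e' : ∑ j, (ρ * (p a * q j)) * N j b = ρ * p a * ∑ j, q j * N j b := by
      rw [Finset.mul_sum]
      refine Finset.sum_congr rfl fun j _ => ?_
      ring
    rw [e, g3]
    rw [e'] at g1
    linear_combination g1 - ρ * p a * g2
  -- columns
  have hcol : ∀ b, ∃ y : K, (fun a => U a b) = y • p := by
    intro b
    apply hker
    funext a
    have := congrFun (congrFun hMU a) b
    rw [Matrix.mul_apply] at this
    exact this
  choose y hy using hcol
  have hy' : ∀ a b, U a b = y b * p a := fun a b => congrFun (hy b) a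
  obtain ⟨a₀, ha₀⟩ : ∃ a, p a ≠ 0 := by
    by_contra hcon
    push Not at hcon
    exact hp0 (funext hcon)
  obtain ⟨c, hc⟩ := hcok y (by
    funext b
    have := congrFun (congrFun hUM a₀) b
    rw [Matrix.mul_apply, Matrix.zero_apply] at this
    simp only [Matrix.vecMul, dotProduct, Pi.zero_apply]
    have e : ∑ j, U a₀ j * M j b = p a₀ * ∑ j, y j * M j b := by
      rw [Finset.mul_sum]
      refine Finset.sum_congr rfl fun j _ => ?_
      rw [hy']
      ring
    rw [e] at this
    exact (mul_eq_zero.1 this).resolve_left ha₀)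
  refine ⟨c, fun a b => ?_⟩
  have h3 := hy' a b
  simp only [U, Matrix.of_apply] at h3
  rw [hc] at h3
  simp only [Pi.smul_apply, smul_eq_mul] at h3
  linear_combination h3

end corank

end Pool.Agent.H72.Dc
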