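import Pool.Agent.H72.Dc.Asy

/-!
# The choice of the parameters for the sharp gadget
-/

set_option autoImplicit false

namespace Pool.Agent.H72.Dc

open Finset
open scoped Nat
open Pool.Agent.H72.Bp (asy_cnt)

theorem asy3_main {G cnt s : ℕ} (hG : 0 < G) (h : (32 * G)! ≤ cnt * 2 ^ (16 * G))
    (h2 : cnt ^ (32 * G - 1) * ((32 * G - 1) * (32 * G) + 1) ^ ((32 * G - 1) * (32 * G) + 1) ≤
      (11 * s) ^ ((32 * G - 1) * (32 * G) + 1)) : 7936 * G ^ 3 ≤ 22 * s := by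
  have h1 := asy_cnt h
  set m := (32 * G - 1) * (32 * G) with hm
  have hm1 : 992 * G ^ 2 ≤ m := by
    calc 992 * G ^ 2 = (31 * G) * (32 * G) := by ring
      _ ≤ m := Nat.mul_le_mul_right _ (by omega)
  have h3 : (8 * G) ^ m * (m + 1) ^ (m + 1) ≤ (11 * s) ^ (m + 1) := by
    refine le_trans (Nat.mul_le_mul_right _ ?_) h2
    calc (8 * G) ^ m = ((8 * G) ^ (32 * G)) ^ (32 * G - 1) := by
          rw [← pow_mul, hm, mul_comm (32 * G)]
      _ ≤ cnt ^ (32 * G - 1) := Nat.pow_le_pow_left h1 _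
  have h4 : 8 * G ≤ 2 ^ (m + 1) := by
    have h5 : 8 * G ≤ m + 1 := by
      calc 8 * G ≤ 8 * G * (124 * G) := Nat.le_mul_of_pos_right _ (by omega)
        _ = 992 * G ^ 2 := by ring
        _ ≤ m + 1 := by omega
    exact h5.trans Nat.lt_two_pow_self.le
  have h5 : (8 * G * (m + 1)) ^ (m + 1) ≤ (22 * s) ^ (m + 1) := by
    calc (8 * G * (m + 1)) ^ (m + 1) = (8 * G) * ((8 * G) ^ m * (m + 1) ^ (m + 1)) := by
          rw [mul_pow, pow_succ (8 * G) m]
          ring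
      _ ≤ 2 ^ (m + 1) * (11 * s) ^ (m + 1) := Nat.mul_le_mul h4 h3
      _ = (22 * s) ^ (m + 1) := by
          rw [← mul_pow]
          congr 1
          ring
  have h6 : 8 * G * (m + 1) ≤ 22 * s := (Nat.pow_le_pow_iff_left (by omega)).1 h5
  have h7 : 8 * G * (992 * G ^ 2) ≤ 8 * G * (m + 1) := Nat.mul_le_mul_left _ (by omega)
  have h8 : 8 * G * (992 * G ^ 2) = 7936 * G ^ 3 := by ring
  omega

/-- the size of the gadget for `2 ^ r = 2 d` -/
def sz (r d : ℕ) : ℕ :=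
  2 * 2 ^ r + r + r * (5 * (2 * 2 ^ r + 2 * r)) + (2 * 2 ^ r + 2 * r) + (d + 1 + r)

theorem asy3_pow {r : ℕ} (hr : 5 ≤ r) : 10 * (r + 1) ^ 2 + 4 * (r + 1) + 1 ≤ 16 * 2 ^ r := by
  induction r, hr using Nat.le_induction with
  | base => norm_num
  | succ r hr ih =>
    rw [pow_succ 2 r]
    nlinarith

theorem asy3_small {n : ℕ} (hn : 2 ≤ n) (hn2 : n < 2048) : n ≤ 215 * Nat.log 2 n := by
  have h1 : n < 2 ^ (Nat.log 2 n + 1) := Nat.lt_pow_succ_log_self (by norm_num) n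
  have h2 : Nat.log 2 n < 11 := Nat.log_lt_of_lt_pow (by omega) (by norm_num; exact hn2)
  have h3 : 1 ≤ Nat.log 2 n := Nat.log_pos (by norm_num) hn
  generalize Nat.log 2 n = j at *
  interval_cases j <;> norm_num at h1 <;> omega

theorem asy3 {n s : ℕ} (hn : 2 ≤ n) (hs : 1 ≤ s)
    (h : ∀ r d : ℕ, 0 < r → 0 < d → 2 ^ r = 2 * d → sz r d ≤ n →
      ∃ cnt : ℕ, (2 * d)! ≤ cnt * 2 ^ d ∧
        cnt ^ (2 * d - 1) * ((2 * d - 1) * (2 * d) + 1) ^ ((2 * d - 1) * (2 * d) + 1) ≤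
          (11 * s) ^ ((2 * d - 1) * (2 * d) + 1)) :
    n ^ 3 ≤ 10 ^ 7 * (Nat.log 2 n) ^ 3 * s := by
  classical
  rcases Nat.lt_or_ge n 2048 with hn2 | hn2
  · have h1 := asy3_small hn hn2
    calc n ^ 3 ≤ (215 * Nat.log 2 n) ^ 3 := Nat.pow_le_pow_left h1 3
      _ = 215 ^ 3 * (Nat.log 2 n) ^ 3 := mul_pow _ _ _
      _ ≤ 10 ^ 7 * (Nat.log 2 n) ^ 3 := Nat.mul_le_mul_right _ (by norm_num)
      _ ≤ 10 ^ 7 * (Nat.log 2 n) ^ 3 * s := Nat.le_mul_of_pos_right _ hs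
  · have hle : ∀ r, sz (r + 5) (16 * 2 ^ r) ≤ n → r ≤ n := by
      intro r hr
      refine le_trans ?_ hr
      unfold sz
      omega
    set r := Nat.findGreatest (fun r => sz (r + 5) (16 * 2 ^ r) ≤ n) n with hr
    have h0 : sz (0 + 5) (16 * 2 ^ 0) ≤ n := by
      unfold sz
      norm_num
      omega
    have h1 : sz (r + 5) (16 * 2 ^ r) ≤ n :=
      Nat.findGreatest_spec (P := fun r => sz (r + 5) (16 * 2 ^ r) ≤ n) (Nat.zero_le n) h0
    have h2 : n < sz (r + 1 + 5) (16 * 2 ^ (r + 1)) := by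
      by_contra hcon
      push Not at hcon
      have := Nat.le_findGreatest (P := fun r => sz (r + 5) (16 * 2 ^ r) ≤ n) (hle _ hcon) hcon
      rw [← hr] at this
      omega
    set G := 2 ^ r with hG
    have hG0 : 0 < G := by positivity
    have e32 : 2 ^ (r + 5) = 2 * (16 * G) := by rw [pow_add, hG]; ring
    obtain ⟨cnt, g1, g2⟩ := h (r + 5) (16 * G) (by omega) (by omega) e32 h1
    have e1 : 2 * (16 * G) = 32 * G := by ring
    rw [e1] at g1 g2
    have h3 := asy3_main hG0 g1 g2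
    -- the size
    have h4 : n ≤ 29 * (r + 5) * (32 * G) := by
      have h5 := asy3_pow (r := r + 5) (by omega)
      rw [e32] at h5
      refine h2.le.trans ?_
      unfold sz
      have e2 : 2 ^ (r + 1 + 5) = 64 * G := by
        rw [show r + 1 + 5 = r + 5 + 1 by ring, pow_succ, e32]; ring
      have e3 : 2 ^ (r + 1) = 2 * G := by rw [pow_succ, hG]; ring
      rw [e2, e3]
      nlinarith
    have h6 : r + 5 ≤ Nat.log 2 n := by
      apply Nat.le_log_of_pow_le (by norm_num)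
      refine le_trans ?_ h1
      unfold sz
      omega
    have h7 : n ^ 3 ≤ 799178752 * ((r + 5) ^ 3 * G ^ 3) := by
      calc n ^ 3 ≤ (29 * (r + 5) * (32 * G)) ^ 3 := Nat.pow_le_pow_left h4 3
        _ = _ := by ring
    have h8 : 7936 * n ^ 3 ≤ 7936 * (10 ^ 7 * (r + 5) ^ 3 * s) := by
      calc 7936 * n ^ 3 ≤ 7936 * (799178752 * ((r + 5) ^ 3 * G ^ 3)) := Nat.mul_le_mul_left _ h7
        _ = 799178752 * (r + 5) ^ 3 * (7936 * G ^ 3) := by ring
        _ ≤ 799178752 * (r + 5) ^ 3 * (22 * s) := Nat.mul_le_mul_left _ h3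
        _ = 17581932544 * ((r + 5) ^ 3 * s) := by ring
        _ ≤ 79360000000 * ((r + 5) ^ 3 * s) := Nat.mul_le_mul_right _ (by norm_num)
        _ = 7936 * (10 ^ 7 * (r + 5) ^ 3 * s) := by ring
    have h9 := Nat.le_of_mul_le_mul_left h8 (by norm_num)
    refine h9.trans (Nat.mul_le_mul_right _ (Nat.mul_le_mul_left _ (Nat.pow_le_pow_left h6 3)))

end Pool.Agent.H72.Dc
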