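import Pool.Agent.H72.Dc.Cls
import Pool.Agent.H72.Bp.Sub
import Pool.Agent.H61.BD.Border
import Pool.Agent.H10.PerSL.Hensel

/-!
# The class bound for approximative determinants
-/

set_option autoImplicit false

namespace Pool.Agent.H72.Dc

open MvPolynomial Finset
open Pool.Agent.H10.PerSL (hensel exists_psi)
open Pool.Agent.H61.BD (DetLE BorderDetLE)

universe u v w

section gp

variable {R : Type u} [CommRing R] {τ : Type v}

/-- `f - c * X` with a new variable `X`. -/
noncomputable def gp (f : MvPolynomial τ R) (c : R) : MvPolynomial (τ ⊕ Unit) R :=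
  rename Sum.inl f - C c * X (Sum.inr ())

theorem eval_gp (f : MvPolynomial τ R) (c : R) (P : τ ⊕ Unit → R) :
    eval P (gp f c) = eval (fun t => P (Sum.inl t)) f - c * P (Sum.inr ()) := by
  rw [gp, map_sub, map_mul, eval_C, eval_X, eval_rename]
  rfl

theorem eval_pderiv_gp_inl [DecidableEq τ] (f : MvPolynomial τ R) (c : R) (P : τ ⊕ Unit → R)
    (t : τ) : eval P (pderiv (Sum.inl t) (gp f c)) =
      eval (fun t => P (Sum.inl t)) (pderiv t f) := by
  rw [gp, map_sub, Derivation.leibniz, pderiv_C, smul_zero, add_zero,
    pderiv_X_of_ne Sum.inr_ne_inl, smul_zero, sub_zero, pderiv_rename Sum.inl_injective,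
    eval_rename]
  rfl

theorem eval_pderiv_gp_inr [DecidableEq τ] (f : MvPolynomial τ R) (c : R) (P : τ ⊕ Unit → R)
    (u : Unit) : eval P (pderiv (Sum.inr u) (gp f c)) = -c := by
  have h1 : pderiv (Sum.inr u : τ ⊕ Unit) (rename Sum.inl f) = 0 := by
    apply pderiv_eq_zero_of_notMem_vars
    intro h
    have := vars_rename (Sum.inl : τ → τ ⊕ Unit) f h
    rw [Finset.mem_image] at this
    obtain ⟨x, -, hx⟩ := this
    exact Sum.inl_ne_inr hx
  rw [gp, map_sub, h1, Derivation.leibniz, pderiv_C, smul_zero, add_zero, pderiv_X_self,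
    smul_eq_mul, mul_one, zero_sub, map_neg, eval_C]

theorem map_gp {R' : Type u} [CommRing R'] (φ : R →+* R') (f : MvPolynomial τ R) (c : R) :
    map φ (gp f c) = gp (map φ f) (φ c) := by
  rw [gp, gp, map_sub, map_mul, map_C, map_X, map_rename]

end gp

theorem class_lift {K : Type u} [Field K] {L : Type u} [Field L] [IsAlgClosed L] [CharZero L]
    [Algebra (PowerSeries K) L]
    (hinj : Function.Injective (algebraMap (PowerSeries K) L))
    {τ : Type v} [Fintype τ] [DecidableEq τ] {s : ℕ}
    (M : Matrix (Fin s) (Fin s) (MvPolynomial τ L)) (hM : ∀ i j, (M i j).totalDegree ≤ 1)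
    (Φ : MvPolynomial τ (PowerSeries K)) {c₁ : L} (hc₁ : c₁ ≠ 0)
    (hΦ : M.det = C c₁ * map (algebraMap (PowerSeries K) L) Φ) {b : τ → K} (hb : b ≠ 0)
    (S : Finset (τ → K))
    (hS : ∀ z ∈ S, Tang (map (PowerSeries.constantCoeff (R := K)) Φ) b z) :
    S.card * Fintype.card τ ^ Fintype.card τ ≤ (11 * s) ^ Fintype.card τ := by
  classical
  set ι := algebraMap (PowerSeries K) L with hι
  set cc := PowerSeries.constantCoeff (R := K) with hcc
  let g : τ ⊕ Unit → MvPolynomial τ (PowerSeries K) := Sum.elim (fun t => pderiv t Φ) fun _ => Φ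
  let d : τ ⊕ Unit → PowerSeries K := Sum.elim (fun t => PowerSeries.C (b t)) fun _ => 0
  let F : τ ⊕ Unit → MvPolynomial (τ ⊕ Unit) (PowerSeries K) := fun i => gp (g i) (d i)
  have hFred : ∀ i, map cc (F i) = gp (map cc (g i)) (cc (d i)) := fun i => map_gp _ _ _
  have hg1 : ∀ t, map cc (g (Sum.inl t)) = pderiv t (map cc Φ) := fun t => pderiv_map.symm
  have hg2 : ∀ u, map cc (g (Sum.inr u)) = map cc Φ := fun u => rfl
  have hd1 : ∀ t, cc (d (Sum.inl t)) = b t := fun t => PowerSeries.constantCoeff_C _
  have hd2 : ∀ u, cc (d (Sum.inr u)) = 0 := fun u => map_zero _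
  have hlift : ∀ z : τ → K, ∃ q : τ ⊕ Unit → PowerSeries K, z ∈ S →
      ((∀ i, eval q (F i) = 0) ∧ (∀ t, cc (q (Sum.inl t)) = z t) ∧ cc (q (Sum.inr ())) ≠ 0 ∧
        (Matrix.of fun i j => eval q (pderiv j (F i))).det ≠ 0) := by
    intro z
    by_cases hz : z ∈ S
    · obtain ⟨h0, ⟨ρ, hρ, hgrad⟩, hnd⟩ := hS z hz
      let P : τ ⊕ Unit → K := Sum.elim z fun _ => ρ
      have hPz : (fun t => P (Sum.inl t)) = z := rfl
      have hJ : (Matrix.of fun i j => eval P (pderiv j (map cc (F i)))).det ≠ 0 := by
        intro hdet
        obtain ⟨v, hv0, hv⟩ := Matrix.exists_mulVec_eq_zero_iff.2 hdet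
        apply hv0
        have e0 : ∀ i, ∑ t, eval z (pderiv t (map cc (g i))) * v (Sum.inl t) -
            cc (d i) * v (Sum.inr ()) = 0 := by
          intro i
          have := congrFun hv i
          simp only [Matrix.mulVec, dotProduct, Matrix.of_apply, Pi.zero_apply,
            Fintype.sum_sum_type, hFred, eval_pderiv_gp_inl, eval_pderiv_gp_inr, hPz,
            Finset.univ_unique, Finset.sum_singleton] at this
          rw [sub_eq_add_neg, ← neg_mul]
          exact this
        have e1 := e0 (Sum.inr ())
        have e2 := fun t => e0 (Sum.inl t)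
        simp only [hg1, hg2, hd1, hd2, zero_mul, sub_zero] at e1 e2
        have h1 : ∑ t, b t * v (Sum.inl t) = 0 := by
          have h2 : ρ * ∑ t, b t * v (Sum.inl t) = 0 := by
            rw [← e1, Finset.mul_sum]
            refine Finset.sum_congr rfl fun t _ => ?_
            rw [hgrad]
            ring
          exact (mul_eq_zero.1 h2).resolve_left hρ
        have h2 : (fun t => v (Sum.inl t)) = 0 := by
          refine hnd _ (v (Sum.inr ())) h1 fun t => ?_
          have h3 := e2 t
          have h4 : ∑ x, eval z (pderiv x (pderiv t (map cc Φ))) * v (Sum.inl x) =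
              ∑ x, v (Sum.inl x) * eval z (pderiv x (pderiv t (map cc Φ))) :=
            Finset.sum_congr rfl fun x _ => mul_comm _ _
          rw [h4] at h3
          linear_combination h3
        obtain ⟨t, ht⟩ : ∃ t, b t ≠ 0 := by
          by_contra hcon
          push Not at hcon
          exact hb (funext hcon)
        have h3 : v (Sum.inr ()) = 0 := by
          have h4 := e2 t
          have h5 : ∀ x, v (Sum.inl x) = 0 := fun x => congrFun h2 x
          simp only [h5, mul_zero, Finset.sum_const_zero, zero_sub] at h4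
          have h6 : b t * v (Sum.inr ()) = 0 := by linear_combination -h4
          exact (mul_eq_zero.1 h6).resolve_left ht
        funext i
        rcases i with t | u
        · exact congrFun h2 t
        · exact h3
      obtain ⟨q, hq1, hq2⟩ := hensel F P (by
        intro i
        change eval P (map cc (F i)) = 0
        rw [hFred, eval_gp, hPz]
        rcases i with t | u
        · rw [hg1, hd1, hgrad]
          change ρ * b t - b t * ρ = 0
          ring
        · rw [hg2, hd2, h0, zero_mul, sub_zero]) hJ
      refine ⟨q, fun _ => ⟨hq1, fun t => hq2 (Sum.inl t), ?_, ?_⟩⟩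
      · rw [hcc, hq2]
        exact hρ
      · intro h
        apply hJ
        have h1 := congrArg cc h
        rw [RingHom.map_det, map_zero] at h1
        rw [← h1]
        congr 1
        ext i j
        rw [Matrix.of_apply, RingHom.mapMatrix_apply, Matrix.map_apply, Matrix.of_apply,
          pderiv_map]
        have h2 : P = fun i => cc (q i) := by
          funext i
          exact (hq2 i).symm
        rw [h2, eval_map, ← eval₂_id, hom_eval₂]
        rfl
    · exact ⟨0, fun h => absurd h hz⟩
  choose q hq using hlift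
  have heval : ∀ (z : τ → K) (f : MvPolynomial τ (PowerSeries K)),
      eval (fun t => ι (q z (Sum.inl t))) (map ι f) = ι (eval (fun t => q z (Sum.inl t)) f) := by
    intro z f
    rw [eval_map, eval₂_comp]
    rfl
  have hinjq : Set.InjOn (fun z : τ → K => fun t => ι (q z (Sum.inl t))) S := by
    intro z hz z' hz' h
    funext t
    rw [← (hq z hz).2.1 t, ← (hq z' hz').2.1 t]
    rw [hinj (congrFun h t)]
  have hb' : (fun t => ι (PowerSeries.C (b t))) ≠ 0 := by
    intro h
    apply hb
    funext t
    have h1 := congrFun h t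
    simp only [Pi.zero_apply] at h1
    rw [map_eq_zero_iff ι hinj] at h1
    have h2 := congrArg cc h1
    simpa [hcc] using h2
  have hD : ∀ t, pderiv t M.det = C c₁ * map ι (pderiv t Φ) := by
    intro t
    rw [hΦ, Derivation.leibniz, pderiv_C, smul_zero, add_zero, pderiv_map, smul_eq_mul]
  have hb2 := class_bound M hM hb' (S.image fun z => fun t => ι (q z (Sum.inl t))) (by
    intro x hx
    obtain ⟨z, hz, rfl⟩ := Finset.mem_image.1 hx
    obtain ⟨h1, h2, h3, h4⟩ := hq z hz
    have g1 : ∀ t, eval (fun t => q z (Sum.inl t)) (pderiv t Φ) =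
        q z (Sum.inr ()) * PowerSeries.C (b t) := by
      intro t
      have := h1 (Sum.inl t)
      rw [show F (Sum.inl t) = gp (pderiv t Φ) (PowerSeries.C (b t)) from rfl, eval_gp] at this
      linear_combination this
    refine ⟨?_, ⟨c₁ * ι (q z (Sum.inr ())), ?_, ?_⟩, ?_⟩
    · rw [hΦ, map_mul, heval]
      have := h1 (Sum.inr ())
      rw [show F (Sum.inr ()) = gp Φ 0 from rfl, eval_gp, zero_mul, sub_zero] at this
      rw [this, map_zero, mul_zero]
    · refine mul_ne_zero hc₁ ?_
      rw [Ne, map_eq_zero_iff ι hinj]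
      intro h
      rw [h, map_zero] at h3
      exact h3 rfl
    · intro t
      rw [hD, map_mul, heval, eval_C, g1, map_mul]
      ring
    · intro v c hv1 hv2
      have hdet : (ι.mapMatrix (Matrix.of fun i j => eval (q z) (pderiv j (F i)))).det ≠ 0 := by
        rw [← RingHom.map_det, Ne, map_eq_zero_iff ι hinj]
        exact h4
      by_contra hv
      apply hdet
      apply Matrix.exists_mulVec_eq_zero_iff.1
      refine ⟨Sum.elim v fun _ => c / c₁, ?_, ?_⟩
      · intro h
        apply hv
        funext t
        exact congrFun h (Sum.inl t)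
      · have key : ∀ i, (∑ t, ι (eval (fun t => q z (Sum.inl t)) (pderiv t (g i))) * v t) -
            ι (d i) * (c / c₁) = 0 → (ι.mapMatrix (Matrix.of fun i j =>
              eval (q z) (pderiv j (F i)))).mulVec (Sum.elim v fun _ => c / c₁) i = 0 := by
          intro i hi
          simp only [Matrix.mulVec, dotProduct, RingHom.mapMatrix_apply, Matrix.map_apply,
            Matrix.of_apply, Fintype.sum_sum_type, Sum.elim_inl, Sum.elim_inr,
            Finset.univ_unique, Finset.sum_singleton, F, eval_pderiv_gp_inl,
            eval_pderiv_gp_inr, map_neg]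
          rw [neg_mul, ← sub_eq_add_neg]
          exact hi
        funext i
        rcases i with t | u
        · apply key
          have h5 := hv2 t
          rw [hD] at h5
          have h6 : ∀ j, v j * eval (fun t => ι (q z (Sum.inl t)))
              (pderiv j (C c₁ * map ι (pderiv t Φ))) =
              c₁ * (ι (eval (fun t => q z (Sum.inl t)) (pderiv j (pderiv t Φ))) * v j) := by
            intro j
            rw [Derivation.leibniz, pderiv_C, smul_zero, add_zero, smul_eq_mul, map_mul, eval_C,
              pderiv_map, heval]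
            ring
          rw [Finset.sum_congr rfl fun j _ => h6 j, ← Finset.mul_sum] at h5
          change (∑ j, ι (eval (fun t => q z (Sum.inl t)) (pderiv j (pderiv t Φ))) * v j) -
            ι (PowerSeries.C (b t)) * (c / c₁) = 0
          field_simp
          linear_combination h5
        · apply key
          change (∑ t, ι (eval (fun t => q z (Sum.inl t)) (pderiv t Φ)) * v t) -
            ι 0 * (c / c₁) = 0
          have h5 : ∀ t, ι (eval (fun t => q z (Sum.inl t)) (pderiv t Φ)) * v t =
              ι (q z (Sum.inr ())) * (ι (PowerSeries.C (b t)) * v t) := by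
            intro t
            rw [g1, map_mul]
            ring
          rw [Finset.sum_congr rfl fun t _ => h5 t, ← Finset.mul_sum, hv1, mul_zero, map_zero,
            zero_mul, sub_zero])
  rw [Finset.card_image_of_injOn hinjq] at hb2
  exact hb2

/-- From determinants over `k(ε)` to determinants over an extension of `K[[t]]`. -/
theorem det_border_subst {k : Type u} [Field k] {K : Type u} [Field K] [Algebra k K]
    {L : Type u} [Field L] [Algebra (PowerSeries K) L]
    (hinj : Function.Injective (algebraMap (PowerSeries K) L))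
    {σ : Type w} {τ : Type v} {f : MvPolynomial σ k} {s : ℕ} (hf : BorderDetLE f s)
    {e : ℕ} (he : 0 < e) (E : σ → MvPolynomial τ (PowerSeries K))
    (hE : ∀ i, (E i).totalDegree ≤ 1) :
    ∃ (M : Matrix (Fin s) (Fin s) (MvPolynomial τ L)) (G : MvPolynomial τ (PowerSeries K)),
      (∀ i j, (M i j).totalDegree ≤ 1) ∧
      M.det = map (algebraMap (PowerSeries K) L)
        (eval₂ ((C : PowerSeries K →+* _).comp
          ((PowerSeries.C (R := K)).comp (algebraMap k K))) E f +
          C (PowerSeries.X ^ e) * G) := by
  classical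
  obtain ⟨F, hF, A, hA, hdet⟩ := hf
  obtain ⟨ψ, hψ⟩ := exists_psi (k := k) hinj he
  choose b hb using fun m => hψ _ _ (hF m)
  let ι := algebraMap (PowerSeries K) L
  let χ : MvPolynomial σ (RatFunc k) →+* MvPolynomial τ L :=
    eval₂Hom ((C : L →+* MvPolynomial τ L).comp ψ) (fun i => map ι (E i))
  have hχ : ∀ P : MvPolynomial σ (RatFunc k), P.totalDegree ≤ 1 → (χ P).totalDegree ≤ 1 := by
    intro P hP
    refine le_trans ?_ hP
    exact Pool.Agent.H72.Bp.Sub.totalDegree_eval₂_le ψ _
      (fun i => (Pool.Agent.H72.Bp.Sub.totalDegree_map_le ι (E i)).trans (hE i)) P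
  let t := F.support ∪ f.support
  let mon : (σ →₀ ℕ) → MvPolynomial τ (PowerSeries K) := fun m => ∏ i ∈ m.support, E i ^ m i
  refine ⟨χ.mapMatrix A, ∑ m ∈ t, C (b m) * mon m, fun i j => hχ _ (hA i j), ?_⟩
  rw [← RingHom.map_det, hdet]
  have h1 : χ F = ∑ m ∈ t, C (ψ (coeff m F)) * map ι (mon m) := by
    simp only [χ, coe_eval₂Hom]
    rw [eval₂_eq]
    refine (Finset.sum_subset (s₂ := t) (Finset.subset_union_left) ?_).trans ?_
    · intro m _ hm
      rw [MvPolynomial.notMem_support_iff.1 hm]
      simp
    · refine Finset.sum_congr rfl fun m _ => ?_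
      simp only [mon, map_prod, map_pow, RingHom.comp_apply]
  have h2 : eval₂ ((C : PowerSeries K →+* _).comp
          ((PowerSeries.C (R := K)).comp (algebraMap k K))) E f =
      ∑ m ∈ t, C (PowerSeries.C (algebraMap k K (coeff m f))) * mon m := by
    rw [eval₂_eq]
    refine (Finset.sum_subset (s₂ := t) (Finset.subset_union_right) ?_).trans ?_
    · intro m _ hm
      rw [MvPolynomial.notMem_support_iff.1 hm]
      simp
    · refine Finset.sum_congr rfl fun m _ => ?_
      simp only [mon, RingHom.comp_apply]
  rw [h2, h1, map_add, map_mul, map_sum, map_sum, Finset.mul_sum, ← Finset.sum_add_distrib]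
  refine Finset.sum_congr rfl fun m _ => ?_
  rw [hb m]
  simp only [map_mul, map_C, map_add, ι]
  ring

end Pool.Agent.H72.Dc
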