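import Pool.Agent.H72.Dc.Sys

/-!
# The class bound
-/

set_option autoImplicit false

namespace Pool.Agent.H72.Dc

open MvPolynomial Finset

universe u v

variable {K : Type u} [Field K] {τ : Type v} [Fintype τ] [DecidableEq τ] {s : ℕ}

/-- A nondegenerate zero of `F` at which the gradient is a nonzero multiple of `b`. -/
def Tang (F : MvPolynomial τ K) (b : τ → K) (z : τ → K) : Prop :=
  eval z F = 0 ∧ (∃ ρ : K, ρ ≠ 0 ∧ ∀ t, eval z (pderiv t F) = ρ * b t) ∧
    ∀ (v : τ → K) (c : K), (∑ t, b t * v t = 0) →
      (∀ t, ∑ j, v j * eval z (pderiv j (pderiv t F)) = c * b t) → v = 0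

/-- the data at a point -/
theorem exists_data (M : Matrix (Fin s) (Fin s) (MvPolynomial τ K))
    (hM : ∀ i j, (M i j).totalDegree ≤ 1) {b : τ → K} (hb : b ≠ 0) {z : τ → K}
    (hz : Tang M.det b z) :
    ∃ p₀ : Fin s → K, p₀ ≠ 0 ∧ ∀ a : Fin s → K, (∑ j, a j * p₀ j ≠ 0) →
      ∃ p q : Fin s → K,
        let P : Vr τ s → K := Sum.elim z (Sum.elim p (Sum.elim q fun _ => 0))
        (∀ i, eval P (sysf M a b i) = 0) ∧
        (Matrix.of fun i j => eval P (pderiv j (sysf M a b i))).det ≠ 0 := by
  classical
  obtain ⟨hF, ⟨ρ, hρ, hgrad⟩, hnd⟩ := hz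
  set M0 : Matrix (Fin s) (Fin s) K := (eval z).mapMatrix M with hM0
  have hdet : M0.det = 0 := by
    rw [hM0, ← RingHom.map_det, hF]
  -- the coefficient matrices
  set A : τ → Fin s → Fin s → K := fun t i j => eval 0 (pderiv t (M i j)) with hA
  have hAM : ∀ t i j, pderiv t (M i j) = C (A t i j) := fun t i j => pderiv_of_deg (hM i j) t
  have hadjz : ∀ i j, eval z (M.adjugate i j) = M0.adjugate i j := by
    intro i j
    have := congrFun (congrFun (RingHom.map_adjugate (eval z) M) i) j
    rw [RingHom.mapMatrix_apply, Matrix.map_apply] at this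
    exact this
  have hFt : ∀ t, ∑ i, ∑ j, M0.adjugate i j * A t j i = ρ * b t := by
    intro t
    rw [← hgrad t, der_det (pderiv t) M, map_sum]
    refine Finset.sum_congr rfl fun i _ => ?_
    rw [map_sum]
    refine Finset.sum_congr rfl fun j _ => ?_
    rw [map_mul, hAM, eval_C, hadjz]
  have hadj : M0.adjugate ≠ 0 := by
    intro h0
    obtain ⟨t, ht⟩ : ∃ t, b t ≠ 0 := by
      by_contra hcon
      push Not at hcon
      exact hb (funext hcon)
    have h1 := hFt t
    rw [h0] at h1
    simp only [Matrix.zero_apply, zero_mul, Finset.sum_const_zero] at h1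
    exact mul_ne_zero hρ ht h1.symm
  obtain ⟨p₀, q₀, hp0, hq0, hMp, hMq, hpq, hker, hcok⟩ := exists_pq hdet hadj
  refine ⟨p₀, hp0, fun a ha => ?_⟩
  set α : K := ∑ j, a j * p₀ j with hα
  set p : Fin s → K := fun j => p₀ j / α with hp
  set q : Fin s → K := fun j => q₀ j * α / ρ with hq
  have hpα : p = α⁻¹ • p₀ := by
    funext j
    simp only [hp, Pi.smul_apply, smul_eq_mul]
    rw [div_eq_inv_mul]
  have hqα : q = (α / ρ) • q₀ := by
    funext j
    simp only [hq, Pi.smul_apply, smul_eq_mul]
    ring
  have hp00 : p ≠ 0 := by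
    rw [hpα]
    exact smul_ne_zero (inv_ne_zero ha) hp0
  have hMp' : M0.mulVec p = 0 := by rw [hpα, Matrix.mulVec_smul, hMp, smul_zero]
  have hMq' : M0.vecMul q = 0 := by rw [hqα, Matrix.smul_vecMul, hMq, smul_zero]
  have hker' : ∀ x, M0.mulVec x = 0 → ∃ c : K, x = c • p := by
    intro x hx
    obtain ⟨c, hc⟩ := hker x hx
    refine ⟨c * α, ?_⟩
    rw [hc, hpα, smul_smul, mul_assoc, mul_inv_cancel₀ ha, mul_one]
  have hcok' : ∀ x, M0.vecMul x = 0 → ∃ c : K, x = c • q := by
    intro x hx
    obtain ⟨c, hc⟩ := hcok x hx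
    refine ⟨c * (ρ / α), ?_⟩
    rw [hc, hqα, smul_smul]
    congr 1
    field_simp
  have hadjpq : M0.adjugate = Matrix.of (fun i j => ρ * (p i * q j)) := by
    rw [hpq]
    ext i j
    simp only [Matrix.of_apply, hp, hq]
    field_simp
  have hap : ∑ j, a j * p j = 1 := by
    have : ∀ j, a j * p j = (a j * p₀ j) / α := fun j => by simp only [hp]; ring
    rw [Finset.sum_congr rfl fun j _ => this j, ← Finset.sum_div, ← hα, div_self ha]
  have hqAp : ∀ t, ∑ i, ∑ j, q i * A t i j * p j = b t := by
    intro t
    have h1 := hFt t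
    rw [hadjpq] at h1
    simp only [Matrix.of_apply] at h1
    rw [Finset.sum_comm] at h1
    have h2 : ∑ i, ∑ j, ρ * (p j * q i) * A t i j = ρ * ∑ i, ∑ j, q i * A t i j * p j := by
      rw [Finset.mul_sum]
      refine Finset.sum_congr rfl fun i _ => ?_
      rw [Finset.mul_sum]
      refine Finset.sum_congr rfl fun j _ => ?_
      ring
    rw [h2] at h1
    exact mul_left_cancel₀ hρ h1
  refine ⟨p, q, ?_⟩
  intro P
  have hPz : ∀ f : MvPolynomial τ K, eval P (rename Sum.inl f) = eval z f := by
    intro f
    rw [eval_rename]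
    rfl
  have hPp : ∀ j, eval P (X (Sum.inr (Sum.inl j))) = p j := fun j => by rw [eval_X]; rfl
  have hPq : ∀ j, eval P (X (Sum.inr (Sum.inr (Sum.inl j)))) = q j := fun j => by
    rw [eval_X]; rfl
  have hPm : eval P (X (Sum.inr (Sum.inr (Sum.inr ())))) = 0 := by rw [eval_X]; rfl
  have hMz : ∀ i j, eval z (M i j) = M0 i j := fun i j => rfl
  constructor
  · rintro (t | i | j | u)
    · simp only [sysf, map_sub, map_sum, map_mul, hPp, hPq, eval_C]
      exact sub_eq_zero.2 (hqAp t)
    · simp only [sysf, map_sum, map_mul, hPz, hPp, hMz]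
      exact congrFun hMp' i
    · simp only [sysf, map_sub, map_sum, map_mul, hPz, hPq, hPm, hMz, mul_zero, sub_zero]
      exact congrFun hMq' j
    · simp only [sysf, map_sub, map_sum, map_mul, eval_C, hPp, map_one]
      exact sub_eq_zero.2 hap
  · intro hJ
    obtain ⟨v, hv0, hv⟩ := Matrix.exists_mulVec_eq_zero_iff.2 hJ
    apply hv0
    have hv' : ∀ i, eval P (dirD v (sysf M a b i)) = 0 := by
      intro i
      rw [eval_dirD]
      have := congrFun hv i
      simp only [Matrix.mulVec, dotProduct, Matrix.of_apply, Pi.zero_apply] at this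
      rw [← this]
      exact Finset.sum_congr rfl fun j _ => mul_comm _ _
    set vz : τ → K := fun t => v (Sum.inl t) with hvz
    set p' : Fin s → K := fun j => v (Sum.inr (Sum.inl j)) with hp'
    set q' : Fin s → K := fun j => v (Sum.inr (Sum.inr (Sum.inl j))) with hq'
    set μ' : K := v (Sum.inr (Sum.inr (Sum.inr ()))) with hμ'
    set N : Matrix (Fin s) (Fin s) K := (eval z).mapMatrix (dM (dirD vz) M) with hN
    have hNz : ∀ i j, eval z (dirD vz (M i j)) = N i j := fun i j => rfl
    have hNA : ∀ i j, N i j = ∑ t, vz t * A t i j := by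
      intro i j
      rw [← hNz, eval_dirD]
      refine Finset.sum_congr rfl fun t _ => ?_
      rw [hAM, eval_C]
    -- the linearized equations
    have e1 : ∀ i, ∑ j, (N i j * p j + M0 i j * p' j) = 0 := by
      intro i
      have := hv' (Sum.inr (Sum.inl i))
      simp only [sysf, map_sum, Derivation.leibniz, smul_eq_mul, map_add, map_mul, dirD_X,
        dirD_rename, hPz, hPp, eval_C] at this
      rw [← this]
      refine Finset.sum_congr rfl fun j _ => ?_
      rw [← hNz, ← hMz]
      ring
    have e2 : ∑ j, a j * p' j = 0 := by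
      have := hv' (Sum.inr (Sum.inr (Sum.inr ())))
      simp only [sysf, map_sub, map_sum, Derivation.leibniz, smul_eq_mul, map_mul,
        dirD_X, dirD_C, eval_C, mul_zero, add_zero, Derivation.map_one_eq_zero,
        sub_zero] at this
      exact this
    have e3 : ∀ j, ∑ i, (q' i * M0 i j + q i * N i j) = a j * μ' := by
      intro j
      have := hv' (Sum.inr (Sum.inr (Sum.inl j)))
      simp only [sysf, map_sub, map_sum, Derivation.leibniz, smul_eq_mul, map_add, map_mul,
        dirD_X, dirD_C, dirD_rename, hPz, hPq, eval_C, mul_zero, add_zero] at this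
      rw [← sub_eq_zero.1 this]
      refine Finset.sum_congr rfl fun i _ => ?_
      rw [← hNz, ← hMz]
      ring
    have e4 : ∀ t, ∑ i, ∑ j, (q' i * A t i j * p j + q i * A t i j * p' j) = 0 := by
      intro t
      have := hv' (Sum.inl t)
      simp only [sysf, map_sub, map_sum, Derivation.leibniz, smul_eq_mul, map_add, map_mul,
        dirD_X, dirD_C, hPp, hPq, eval_C, mul_zero, sub_zero, zero_add] at this
      rw [← this]
      refine Finset.sum_congr rfl fun i _ => ?_
      refine Finset.sum_congr rfl fun j _ => ?_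
      simp only [hp', hq', hA]
      ring
    -- `μ' = 0`
    have f1 : ∑ i, ∑ j, q i * N i j * p j = 0 := by
      have h1 : ∑ i, q i * ∑ j, (N i j * p j + M0 i j * p' j) = 0 := by
        rw [Finset.sum_congr rfl fun i _ => by rw [e1 i, mul_zero]]
        exact Finset.sum_const_zero
      have h2 : ∑ i, q i * ∑ j, (N i j * p j + M0 i j * p' j) =
          ∑ i, ∑ j, q i * N i j * p j + ∑ j, (∑ i, q i * M0 i j) * p' j := by
        have h3 : ∑ j, (∑ i, q i * M0 i j) * p' j = ∑ i, ∑ j, q i * M0 i j * p' j := by
          rw [Finset.sum_comm]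
          refine Finset.sum_congr rfl fun j _ => ?_
          rw [Finset.sum_mul]
        rw [h3, ← Finset.sum_add_distrib]
        refine Finset.sum_congr rfl fun i _ => ?_
        rw [← Finset.sum_add_distrib, Finset.mul_sum]
        refine Finset.sum_congr rfl fun j _ => ?_
        ring
      have h4 : ∑ j, (∑ i, q i * M0 i j) * p' j = 0 := by
        refine Finset.sum_eq_zero fun j _ => ?_
        have : ∑ i, q i * M0 i j = 0 := congrFun hMq' j
        rw [this, zero_mul]
      rw [h2, h4, add_zero] at h1
      exact h1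
    have f2 : μ' = 0 := by
      have h1 : ∑ j, (∑ i, (q' i * M0 i j + q i * N i j)) * p j = μ' := by
        rw [Finset.sum_congr rfl fun j _ => by rw [e3 j]]
        have : ∀ j, a j * μ' * p j = μ' * (a j * p j) := fun j => by ring
        rw [Finset.sum_congr rfl fun j _ => this j, ← Finset.mul_sum, hap, mul_one]
      have h2 : ∑ j, (∑ i, (q' i * M0 i j + q i * N i j)) * p j =
          ∑ i, q' i * ∑ j, M0 i j * p j + ∑ i, ∑ j, q i * N i j * p j := by
        rw [← Finset.sum_add_distrib]
        have : ∀ j, (∑ i, (q' i * M0 i j + q i * N i j)) * p j =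
            ∑ i, (q' i * M0 i j + q i * N i j) * p j := fun j => by rw [Finset.sum_mul]
        rw [Finset.sum_congr rfl fun j _ => this j, Finset.sum_comm]
        refine Finset.sum_congr rfl fun i _ => ?_
        rw [Finset.mul_sum, ← Finset.sum_add_distrib]
        refine Finset.sum_congr rfl fun j _ => ?_
        ring
      have h3 : ∑ i, q' i * ∑ j, M0 i j * p j = 0 := by
        refine Finset.sum_eq_zero fun i _ => ?_
        have : ∑ j, M0 i j * p j = 0 := congrFun hMp' i
        rw [this, mul_zero]
      rw [← h1, h2, h3, f1, add_zero]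
    have f3 : ∑ t, b t * vz t = 0 := by
      rw [← f1]
      have h1 : ∀ t, b t * vz t = ∑ i, ∑ j, q i * (vz t * A t i j) * p j := by
        intro t
        rw [← hqAp t, Finset.sum_mul]
        refine Finset.sum_congr rfl fun i _ => ?_
        rw [Finset.sum_mul]
        refine Finset.sum_congr rfl fun j _ => ?_
        ring
      rw [Finset.sum_congr rfl fun t _ => h1 t, Finset.sum_comm]
      refine Finset.sum_congr rfl fun i _ => ?_
      rw [Finset.sum_comm]
      refine Finset.sum_congr rfl fun j _ => ?_
      rw [hNA, Finset.mul_sum, Finset.sum_mul]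
    -- the derivative of `F`
    have f4 : eval z (dirD vz M.det) = 0 := by
      rw [eval_dirD]
      have : ∀ t, vz t * eval z (pderiv t M.det) = ρ * (b t * vz t) := by
        intro t
        rw [hgrad]
        ring
      rw [Finset.sum_congr rfl fun t _ => this t, ← Finset.mul_sum, f3, mul_zero]
    set Rd : Matrix (Fin s) (Fin s) K := (eval z).mapMatrix (dM (dirD vz) M.adjugate) with hRd
    have hsm : (eval z).mapMatrix
        (dirD vz M.det • (1 : Matrix (Fin s) (Fin s) (MvPolynomial τ K))) = 0 := by
      ext i j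
      rw [RingHom.mapMatrix_apply, Matrix.map_apply, Matrix.smul_apply, smul_eq_mul, map_mul, f4,
        zero_mul]
      rfl
    have g1 : N * M0.adjugate + M0 * Rd = 0 := by
      have := congrArg (eval z).mapMatrix (dM_adj_right (dirD vz) M)
      rw [hsm, map_add, map_mul, map_mul, RingHom.map_adjugate] at this
      exact this
    have g2 : Rd * M0 + M0.adjugate * N = 0 := by
      have := congrArg (eval z).mapMatrix (dM_adj_left (dirD vz) M)
      rw [hsm, map_add, map_mul, map_mul, RingHom.map_adjugate] at this
      exact this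
    obtain ⟨c, hc⟩ := tangent hMp' hMq' hadjpq hker' hcok' hp00 g1 g2 (by
      funext i
      have := e1 i
      rw [Finset.sum_add_distrib] at this
      exact this) (by
      funext j
      have := e3 j
      rw [f2, mul_zero, Finset.sum_add_distrib] at this
      exact this)
    have hz0 : vz = 0 := by
      refine hnd vz c f3 fun t => ?_
      rw [← eval_dirD, der_det (pderiv t) M, map_sum, map_sum]
      have h1 : ∀ i, eval z (dirD vz (∑ j, M.adjugate i j * pderiv t (M j i))) =
          ∑ j, Rd i j * A t j i := by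
        intro i
        rw [map_sum, map_sum]
        refine Finset.sum_congr rfl fun j _ => ?_
        rw [hAM, Derivation.leibniz, dirD_C, smul_zero, zero_add, smul_eq_mul, map_mul, eval_C]
        change A t j i * Rd i j = _
        ring
      rw [Finset.sum_congr rfl fun i _ => h1 i]
      have h2 : ∑ i, ∑ j, Rd i j * A t j i =
          ρ * ∑ i, ∑ j, (q' i * A t i j * p j + q i * A t i j * p' j) +
            c * ∑ i, ∑ j, q i * A t i j * p j := by
        rw [Finset.sum_comm, Finset.mul_sum, Finset.mul_sum, ← Finset.sum_add_distrib]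
        refine Finset.sum_congr rfl fun i _ => ?_
        rw [Finset.mul_sum, Finset.mul_sum, ← Finset.sum_add_distrib]
        refine Finset.sum_congr rfl fun j _ => ?_
        rw [hc]
        ring
      rw [h2, e4, hqAp]
      ring
    have hN0 : ∀ i j, N i j = 0 := by
      intro i j
      rw [hNA, hz0]
      simp
    have hp0' : p' = 0 := by
      obtain ⟨c', hc'⟩ := hker' p' (by
        funext i
        have := e1 i
        simp only [hN0, zero_mul, zero_add] at this
        exact this)
      have h1 := e2
      rw [hc'] at h1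
      have h2 : ∀ j, a j * (c' • p) j = c' * (a j * p j) := fun j => by
        simp only [Pi.smul_apply, smul_eq_mul]; ring
      rw [Finset.sum_congr rfl fun j _ => h2 j, ← Finset.mul_sum, hap, mul_one] at h1
      rw [hc', h1, zero_smul]
    have hq0' : q' = 0 := by
      obtain ⟨c', hc'⟩ := hcok' q' (by
        funext j
        have := e3 j
        simp only [hN0, mul_zero, add_zero, f2] at this
        exact this)
      obtain ⟨t, ht⟩ : ∃ t, b t ≠ 0 := by
        by_contra hcon
        push Not at hcon
        exact hb (funext hcon)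
      have h1 := e4 t
      rw [hc', hp0'] at h1
      have h2 : ∑ i, ∑ j, ((c' • q) i * A t i j * p j + q i * A t i j * (0 : Fin s → K) j) =
          c' * ∑ i, ∑ j, q i * A t i j * p j := by
        rw [Finset.mul_sum]
        refine Finset.sum_congr rfl fun i _ => ?_
        rw [Finset.mul_sum]
        refine Finset.sum_congr rfl fun j _ => ?_
        simp only [Pi.smul_apply, smul_eq_mul, Pi.zero_apply]
        ring
      rw [h2, hqAp] at h1
      rw [hc', (mul_eq_zero.1 h1).resolve_right ht, zero_smul]
    funext i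
    rcases i with t | j | j | u
    · exact congrFun hz0 t
    · exact congrFun hp0' j
    · exact congrFun hq0' j
    · exact f2

/-- The system bound. -/
theorem class_nat [IsAlgClosed K] [CharZero K] (M : Matrix (Fin s) (Fin s) (MvPolynomial τ K))
    (hM : ∀ i j, (M i j).totalDegree ≤ 1) {b : τ → K} (hb : b ≠ 0) (S : Finset (τ → K))
    (hS : ∀ z ∈ S, Tang M.det b z) :
    S.card * (Fintype.card τ ^ Fintype.card τ * (2 * s) ^ (2 * s)) ≤
      (4 * s) ^ Fintype.card τ * (Fintype.card τ + 2 * s) ^ (2 * s) := by
  classical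
  rcases S.eq_empty_or_nonempty with rfl | hSne
  · simp
  have hs : 0 < s := by
    rcases Nat.eq_zero_or_pos s with rfl | h
    · exfalso
      obtain ⟨z, hz⟩ := hSne
      have := (hS z hz).1
      rw [Matrix.det_fin_zero, map_one] at this
      exact one_ne_zero this
    · exact h
  have hτ : 0 < Fintype.card τ := by
    rw [Fintype.card_pos_iff]
    by_contra hcon
    rw [not_nonempty_iff] at hcon
    exact hb (funext fun t => (hcon.false t).elim)
  have hdat := fun z : S => exists_data M hM hb (hS z.1 z.2)
  choose p₀ hp0 hdat using hdat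
  -- the functional
  obtain ⟨a, ha⟩ : ∃ a : Fin s → K, ∀ z : S, ∑ j, a j * p₀ z j ≠ 0 := by
    by_contra hcon
    push Not at hcon
    have h1 : (∏ z : S, ∑ j, C (p₀ z j) * X j : MvPolynomial (Fin s) K) ≠ 0 := by
      rw [Finset.prod_ne_zero_iff]
      intro z _ h0
      apply hp0 z
      funext j
      have h2 := congrArg (fun f => eval (Pi.single j 1 : Fin s → K) f) h0
      simp only [map_sum, map_mul, eval_C, eval_X, map_zero] at h2
      rw [Finset.sum_eq_single j] at h2
      · rw [Pi.single_eq_same, mul_one] at h2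
        exact h2
      · intro i _ hi
        rw [Pi.single_eq_of_ne hi, mul_zero]
      · intro h
        exact absurd (mem_univ j) h
    apply h1
    apply MvPolynomial.funext
    intro a
    obtain ⟨z, hz⟩ := hcon a
    rw [map_prod, map_zero]
    refine Finset.prod_eq_zero (mem_univ z) ?_
    simp only [map_sum, map_mul, eval_C, eval_X]
    rw [← hz]
    exact Finset.sum_congr rfl fun j _ => mul_comm _ _
  have hdat' := fun z : S => hdat z a (ha z)
  choose p q hpq using hdat'
  let P : S → (Vr τ s → K) := fun z => Sum.elim z.1 (Sum.elim (p z) (Sum.elim (q z) fun _ => 0))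
  have hPinj : Function.Injective P := by
    intro z z' h
    apply Subtype.ext
    funext t
    exact congrFun h (Sum.inl t)
  have hb' := wbezout (sysf M a b) (sysw τ s) (sysd τ s) (by
    rintro (t | i)
    · exact hτ
    · simp only [sysw]; omega) (by
    rintro (t | i | j | u) <;> simp only [sysd] <;> omega) (fun i c => sysf_deg M hM a b i c)
    (univ.image P) (by
      intro x hx
      obtain ⟨z, -, rfl⟩ := Finset.mem_image.1 hx
      exact hpq z)
  rw [Finset.card_image_of_injective _ hPinj, Finset.card_univ, Fintype.card_coe] at hb'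
  simp only [Fintype.prod_sum_type, sysw, sysd, Finset.prod_const, Finset.card_univ,
    Fintype.card_fin, Fintype.card_unit, pow_one] at hb'
  have h2s : 0 < 2 * s := by omega
  have hcs : Fintype.card (Fin s ⊕ Fin s ⊕ Unit) = 2 * s + 1 := by
    simp only [Fintype.card_sum, Fintype.card_fin, Fintype.card_unit]
    ring
  rw [hcs] at hb'
  apply Nat.le_of_mul_le_mul_right (c := 2 * s) ?_ h2s
  calc S.card * (Fintype.card τ ^ Fintype.card τ * (2 * s) ^ (2 * s)) * (2 * s)
      = S.card * (Fintype.card τ ^ Fintype.card τ * (2 * s) ^ (2 * s + 1)) := by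
        rw [pow_succ]
        ring
    _ ≤ _ := hb'
    _ = _ := by
        have : (Fintype.card τ + 2 * s) ^ (2 * s) =
            (Fintype.card τ + 2 * s) ^ s * (Fintype.card τ + 2 * s) ^ s := by
          rw [← pow_add, two_mul]
        rw [this]
        ring

/-- **The class bound.** The number of nondegenerate points of a determinantal hypersurface at
which the tangent hyperplane has a given direction is at most `(11 s / n) ^ n`. -/
theorem class_bound [IsAlgClosed K] [CharZero K] (M : Matrix (Fin s) (Fin s) (MvPolynomial τ K))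
    (hM : ∀ i j, (M i j).totalDegree ≤ 1) {b : τ → K} (hb : b ≠ 0) (S : Finset (τ → K))
    (hS : ∀ z ∈ S, Tang M.det b z) :
    S.card * Fintype.card τ ^ Fintype.card τ ≤ (11 * s) ^ Fintype.card τ := by
  have h := class_nat M hM hb S hS
  set n := Fintype.card τ
  rcases Nat.eq_zero_or_pos s with rfl | hs
  · have h0 : S = ∅ := by
      rw [Finset.eq_empty_iff_forall_notMem]
      intro z hz
      have := (hS z hz).1
      rw [Matrix.det_fin_zero, map_one] at this
      exact one_ne_zero this
    rw [h0]
    simp
  have h2s : (0 : ℝ) < 2 * s := by positivity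
  have h1 : ((n : ℝ) + 2 * s) ^ (2 * s) ≤ (2 * s) ^ (2 * s) * Real.exp 1 ^ n := by
    have h3 : (n : ℝ) + 2 * s = (2 * s) * (n / (2 * s) + 1) := by
      field_simp
    rw [h3, mul_pow]
    refine mul_le_mul_of_nonneg_left ?_ (by positivity)
    calc ((n : ℝ) / (2 * s) + 1) ^ (2 * s) ≤ (Real.exp (n / (2 * s))) ^ (2 * s) :=
          pow_le_pow_left₀ (by positivity) (Real.add_one_le_exp _) _
      _ = Real.exp 1 ^ n := by
          rw [← Real.exp_nat_mul, ← Real.exp_nat_mul]
          congr 1
          push_cast
          field_simp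
  have h4 : ((S.card * (n ^ n * (2 * s) ^ (2 * s)) : ℕ) : ℝ) ≤
      (((4 * s) ^ n * (n + 2 * s) ^ (2 * s) : ℕ) : ℝ) := by exact_mod_cast h
  push_cast at h4
  have h5 : ((S.card : ℝ) * n ^ n) * (2 * s) ^ (2 * s) ≤
      ((11 * s) ^ n) * (2 * s) ^ (2 * s) := by
    calc ((S.card : ℝ) * n ^ n) * (2 * s) ^ (2 * s) = S.card * (n ^ n * (2 * s) ^ (2 * s)) := by
          ring
      _ ≤ (4 * s) ^ n * (n + 2 * s) ^ (2 * s) := h4
      _ ≤ (4 * s) ^ n * ((2 * s) ^ (2 * s) * Real.exp 1 ^ n) :=
          mul_le_mul_of_nonneg_left h1 (by positivity)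
      _ = (4 * s * Real.exp 1) ^ n * (2 * s) ^ (2 * s) := by
          rw [mul_pow (4 * (s : ℝ)) (Real.exp 1) n]
          ring
      _ ≤ ((11 * s) ^ n) * (2 * s) ^ (2 * s) := by
          refine mul_le_mul_of_nonneg_right (pow_le_pow_left₀ (by positivity) ?_ _)
            (by positivity)
          have h6 := Real.exp_one_lt_d9
          have h7 : (0 : ℝ) < s := by exact_mod_cast hs
          nlinarith
  have h6 := le_of_mul_le_mul_right h5 (by positivity)
  exact_mod_cast h6

end Pool.Agent.H72.Dc
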