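import Pool.Agent.H72.Dc.Ext
import Pool.Agent.H24.DcG.Gad

/-!
# Assembly with the sharp gadget
-/

set_option autoImplicit false

namespace Pool.Agent.H72.Dc

open MvPolynomial Finset
open scoped Nat
open Pool.Agent.H10.PerSL (es perPoly perPoly_eval₂)
open Pool.Agent.PerSL2
open Pool.Agent.H72.Bp (crit3)
open Pool.Agent.H24.DcG (St sharp_gadget)
open Pool.Agent.H61.BD (DetLE BorderDetLE)

universe u v w

theorem core2 {n r d : ℕ} (hr : 0 < r) (hd : 0 < d) (hrd : 2 ^ r = 2 * d)
    (hn : 2 * 2 ^ r + r + r * (5 * (2 * 2 ^ r + 2 * r)) + (2 * 2 ^ r + 2 * r) + (d + 1 + r) ≤ n)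
    (k : Type u) [Field k] [CharZero k] (s : ℕ) (hs : BorderDetLE (perPoly n k) s) :
    ∃ cnt : ℕ, (2 * d)! ≤ cnt * 2 ^ d ∧
      cnt ^ (2 * d - 1) * ((2 * d - 1) * (2 * d) + 1) ^ ((2 * d - 1) * (2 * d) + 1) ≤
        (11 * s) ^ ((2 * d - 1) * (2 * d) + 1) := by
  classical
  have : CharZero (AlgebraicClosure k) := charZero_of_injective_algebraMap
    (algebraMap k (AlgebraicClosure k)).injective
  have hprim : ∀ N : ℕ, 0 < N → ∃ ζ : AlgebraicClosure k, IsPrimitiveRoot ζ N := by
    intro N hN
    have : NeZero N := ⟨hN.ne'⟩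
    exact HasEnoughRootsOfUnity.exists_primitiveRoot _ _
  obtain ⟨ω, hω⟩ := hprim d hd
  obtain ⟨ζ, hζ⟩ := hprim (2 * 2 ^ r + 2 * r) (by positivity)
  obtain ⟨Row, Col, i1, i2, i3, i4, A, c₁, L, Z, hRow, hCol, hEntry, hc1, hA⟩ :=
    sharp_gadget (K := AlgebraicClosure k) (r := r) (k := d + 1) hr (by rw [hrd]; omega) hζ
  have hcI : Fintype.card (St r) = 2 * d := by
    rw [Fintype.card_fun, Fintype.card_fin, Fintype.card_fin, pow_one, hrd]
  -- the distinguished copy and its variables
  have hneI : Nonempty (St r) := by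
    rw [← Fintype.card_pos_iff, hcI]; omega
  let ω₀ : St r := Classical.choice hneI
  let i₀ : St r := Classical.choice hneI
  obtain ⟨T, hT1, -, hT⟩ : ∃ T : Finset (St r), {i₀} ⊆ T ∧ T ⊆ univ ∧
      T.card = d + 1 := by
    apply Finset.exists_subsuperset_card_eq (subset_univ _)
    · simp
    · rw [Finset.card_univ, hcI]; omega
  have hi₀ : i₀ ∈ T := hT1 (Finset.mem_singleton_self _)
  obtain ⟨b, cnt, S, hcnt, hS, hcrit⟩ :=
    crit3 hd hω {x : St r // x ≠ ω₀} (St r) hcI
  refine ⟨cnt, hcnt, ?_⟩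
  have hcΩ : Fintype.card {x : St r // x ≠ ω₀} = 2 * d - 1 := by
    rw [Fintype.card_subtype_compl, hcI]
    simp
  rw [hcΩ] at hS
  rw [← hS]
  obtain ⟨e, he⟩ := Nat.exists_eq_add_of_le hn
  have hcR : Fintype.card (Row ⊕ Fin e) = n := by
    rw [Fintype.card_sum, hRow, Fintype.card_fin, he]
  have hcC : Fintype.card (Col ⊕ Fin e) = n := by
    rw [Fintype.card_sum, hCol, Fintype.card_fin, he]
  let eR : Fin n ≃ Row ⊕ Fin e := (Fintype.equivFinOfCardEq hcR).symm
  let eC : Fin n ≃ Col ⊕ Fin e := (Fintype.equivFinOfCardEq hcC).symm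
  let θ := aeval (R := PowerSeries (AlgebraicClosure k))
    (th (PowerSeries (AlgebraicClosure k)) ω₀ i₀ T)
  let B : Row ⊕ Fin e → Col ⊕ Fin e → MvPolynomial
      (({x : St r // x ≠ ω₀} × (St r)) ⊕ Unit)
      (PowerSeries (AlgebraicClosure k)) := fun i j => θ (pad e A i j)
  let E : Fin n × Fin n → MvPolynomial
      (({x : St r // x ≠ ω₀} × (St r)) ⊕ Unit)
      (PowerSeries (AlgebraicClosure k)) := fun q => B (eR q.1) (eC q.2)
  let L' := AlgebraicClosure (FractionRing (PowerSeries (AlgebraicClosure k)))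
  have hcz : CharZero (FractionRing (PowerSeries (AlgebraicClosure k))) :=
    charZero_of_injective_algebraMap (R := AlgebraicClosure k)
      (algebraMap (AlgebraicClosure k)
        (FractionRing (PowerSeries (AlgebraicClosure k)))).injective
  have hcz' : CharZero L' := charZero_of_injective_algebraMap
    (algebraMap (FractionRing (PowerSeries (AlgebraicClosure k))) L').injective
  let ι := algebraMap (PowerSeries (AlgebraicClosure k)) L'
  have hinj : Function.Injective ι := by
    have h1 : ι = (algebraMap (FractionRing (PowerSeries (AlgebraicClosure k))) L').comp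
        (algebraMap (PowerSeries (AlgebraicClosure k))
          (FractionRing (PowerSeries (AlgebraicClosure k)))) :=
      IsScalarTower.algebraMap_eq _ _ _
    have h2 : Function.Injective (algebraMap (PowerSeries (AlgebraicClosure k))
        (FractionRing (PowerSeries (AlgebraicClosure k)))) := IsFractionRing.injective _ _
    have h3 : Function.Injective
        (algebraMap (FractionRing (PowerSeries (AlgebraicClosure k))) L') := RingHom.injective _
    rw [h1, RingHom.coe_comp]
    exact h3.comp h2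
  have hpe : ∀ i j, Entry (pad e A i j) := by
    intro i j
    rcases i with i | i <;> rcases j with j | j
    · exact hEntry i j
    · exact Entry_zero
    · exact Entry_zero
    · change Entry (if i = j then 1 else 0)
      split_ifs
      · exact Entry_one
      · exact Entry_zero
  have hE : ∀ q, (E q).totalDegree ≤ 1 := by
    intro q
    change (θ (pad e A (eR q.1) (eC q.2))).totalDegree ≤ 1
    rcases hpe (eR q.1) (eC q.2) with ⟨c, hc⟩ | ⟨c, x, hc⟩
    · rw [hc, aeval_C]
      exact (totalDegree_C _).le.trans (Nat.zero_le _)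
    · rw [hc, map_mul, aeval_C, aeval_X]
      refine (totalDegree_mul _ _).trans ?_
      have h1 : (algebraMap (PowerSeries (AlgebraicClosure k)) (MvPolynomial
        (({x : St r // x ≠ ω₀} × (St r)) ⊕ Unit)
        (PowerSeries (AlgebraicClosure k))) c).totalDegree = 0 := totalDegree_C _
      rw [h1, zero_add]
      exact th_deg ω₀ i₀ T x
  obtain ⟨M, G', hM, hB⟩ := det_border_subst (L := L') hinj hs (e := L + 1) (by omega) E hE
  rw [perPoly_eval₂] at hB
  have hpm : (∑ σ : (Col ⊕ Fin e) ≃ (Row ⊕ Fin e), ∏ c, B (σ c) c) = θ (pm A) := by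
    rw [← pm_pad e A (hRow.trans hCol.symm), pm, map_sum]
    refine Finset.sum_congr rfl fun σ _ => ?_
    rw [map_prod]
  rw [hpm, hA] at hB
  have hθd : θ (dsum (St r) (St r) (PowerSeries (AlgebraicClosure k))
      (d + 1)) = rename Sum.inl (dsum {x : St r // x ≠ ω₀} (St r)
        (PowerSeries (AlgebraicClosure k)) (d + 1)) + X (Sum.inr ()) := by
    have := aeval_th_dsum (R := PowerSeries (AlgebraicClosure k)) ω₀ hi₀
    rw [hT] at this
    exact this
  have hθC : ∀ c, θ (C c) = C c := fun c => aeval_C _ _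
  -- the polynomial `Φ`
  let Φ : MvPolynomial (({x : St r // x ≠ ω₀} × (St r)) ⊕ Unit)
      (PowerSeries (AlgebraicClosure k)) :=
    C (PowerSeries.C c₁) * (rename Sum.inl (dsum {x : St r // x ≠ ω₀}
      (St r) (PowerSeries (AlgebraicClosure k)) (d + 1)) + X (Sum.inr ())) +
      C PowerSeries.X * (θ Z + G')
  have hΦ : M.det = C (ι (PowerSeries.X ^ L)) * map ι Φ := by
    have h1 : θ (C (PowerSeries.X ^ L) * (C (PowerSeries.C c₁) * dsum (St r)
        (St r) (PowerSeries (AlgebraicClosure k)) (d + 1)) +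
        C (PowerSeries.X ^ (L + 1)) * Z) + C (PowerSeries.X ^ (L + 1)) * G' =
        C (PowerSeries.X ^ L) * Φ := by
      rw [map_add, map_mul, map_mul, map_mul, hθC, hθC, hθC, hθd]
      simp only [Φ, map_pow]
      ring
    rw [hB, h1, map_mul, map_C]
  have h3 : ι (PowerSeries.X ^ L) ≠ 0 := by
    rw [Ne, map_eq_zero_iff ι hinj]
    exact pow_ne_zero _ PowerSeries.X_ne_zero
  have hred : map (PowerSeries.constantCoeff (R := AlgebraicClosure k)) Φ =
      C c₁ * (rename Sum.inl (dsum {x : St r // x ≠ ω₀} (St r)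
        (AlgebraicClosure k) (d + 1)) + X (Sum.inr ())) := by
    simp only [Φ, map_add, map_mul, map_C, map_X, map_rename, PowerSeries.constantCoeff_C,
      PowerSeries.constantCoeff_X, C_0, zero_mul, add_zero]
    rw [map_dsum]
  let pt : ({x : St r // x ≠ ω₀} × (St r) → AlgebraicClosure k) →
      ((({x : St r // x ≠ ω₀} × (St r)) ⊕ Unit) → AlgebraicClosure k) :=
    fun x => Sum.elim x fun _ => -eval x (dsum {x : St r // x ≠ ω₀}
      (St r) (AlgebraicClosure k) (d + 1))
  have hptinj : Function.Injective pt := by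
    intro x x' hxx
    funext t
    exact congrFun hxx (Sum.inl t)
  have hb := class_lift hinj M hM Φ h3 hΦ (b := Sum.elim (fun _ => b) fun _ => 1) (by
    intro h0
    have := congrFun h0 (Sum.inr ())
    exact one_ne_zero this) (S.image pt) (by
    intro z hz
    obtain ⟨x, hx, rfl⟩ := Finset.mem_image.1 hz
    obtain ⟨hp1, hp2⟩ := hcrit x hx
    rw [hred]
    exact tang_graph _ hc1 hp1 hp2)
  have hcV : Fintype.card (({x : St r // x ≠ ω₀} × (St r)) ⊕ Unit) =
      (2 * d - 1) * (2 * d) + 1 := by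
    rw [Fintype.card_sum, Fintype.card_prod, hcI, hcΩ, Fintype.card_unit]
  rw [Finset.card_image_of_injective _ hptinj, hcV] at hb
  exact hb

end Pool.Agent.H72.Dc
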