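import Pool.Agent.H72.Dc.Bor
import Pool.Agent.H72.Bp.Gad
import Pool.Agent.H72.Bp.Cri
import Pool.Agent.PerSL2.Final

/-!
# One copy of the elementary symmetric polynomial is turned into a free variable
-/

set_option autoImplicit false

namespace Pool.Agent.H72.Dc

open MvPolynomial Finset
open scoped Nat
open Pool.Agent.H10.PerSL (es perPoly perPoly_eval₂)
open Pool.Agent.PerSL2
open Pool.Agent.H72.Bp (abp_gadget crit3)
open Pool.Agent.H61.BD (DetLE BorderDetLE)

universe u v w

section sub

variable {Ω I : Type} [DecidableEq Ω] [DecidableEq I] {R : Type u} [CommRing R]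

/-- The substitution: the variables of the copy `ω₀` are replaced by a new variable, by `1`
and by `0`. -/
noncomputable def th (R : Type u) [CommRing R] (ω₀ : Ω) (i₀ : I) (T : Finset I) (x : Ω × I) :
    MvPolynomial (({ω : Ω // ω ≠ ω₀} × I) ⊕ Unit) R :=
  if h : x.1 ≠ ω₀ then X (Sum.inl (⟨x.1, h⟩, x.2))
  else if x.2 = i₀ then X (Sum.inr ()) else if x.2 ∈ T then 1 else 0

theorem th_deg [Nontrivial R] (ω₀ : Ω) (i₀ : I) (T : Finset I) (x : Ω × I) :
    (th R ω₀ i₀ T x).totalDegree ≤ 1 := by
  unfold th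
  split_ifs
  · rw [totalDegree_X]
  · rw [totalDegree_X]
  · rw [totalDegree_one]; exact Nat.zero_le _
  · rw [totalDegree_zero]; exact Nat.zero_le _

theorem es_th [Fintype I] (ω₀ : Ω) {i₀ : I} {T : Finset I} (hi : i₀ ∈ T) :
    es (univ : Finset I) T.card (fun i => th R ω₀ i₀ T (ω₀, i)) = X (Sum.inr ()) := by
  rw [es, Finset.sum_eq_single T]
  · rw [← Finset.mul_prod_erase T _ hi, Finset.prod_eq_one, mul_one]
    · simp [th]
    · intro i hi'
      have h1 := Finset.ne_of_mem_erase hi'
      have h2 := Finset.mem_of_mem_erase hi'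
      simp [th, h1, h2]
  · intro S hS hST
    obtain ⟨i, hiS, hiT⟩ : ∃ i ∈ S, i ∉ T := by
      by_contra hcon
      push Not at hcon
      apply hST
      exact Finset.eq_of_subset_of_card_le hcon (by rw [(Finset.mem_powersetCard.1 hS).2])
    refine Finset.prod_eq_zero hiS ?_
    have h1 : i ≠ i₀ := fun h => hiT (h ▸ hi)
    simp [th, h1, hiT]
  · intro h
    exact absurd (Finset.mem_powersetCard.2 ⟨subset_univ _, rfl⟩) h

theorem aeval_th_dsum [Fintype Ω] [Fintype I] (ω₀ : Ω) {i₀ : I} {T : Finset I} (hi : i₀ ∈ T) :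
    aeval (th R ω₀ i₀ T) (dsum Ω I R T.card) =
      rename Sum.inl (dsum {ω : Ω // ω ≠ ω₀} I R T.card) + X (Sum.inr ()) := by
  rw [dsum, map_sum, ← Finset.add_sum_erase univ _ (mem_univ ω₀), add_comm]
  congr 1
  · rw [dsum, map_sum]
    symm
    refine Finset.sum_bij (fun ω _ => (ω : Ω)) ?_ ?_ ?_ ?_
    · intro ω _
      exact Finset.mem_erase.2 ⟨ω.2, mem_univ _⟩
    · intro ω _ ω' _ h
      exact Subtype.ext h
    · intro ω hω
      exact ⟨⟨ω, Finset.ne_of_mem_erase hω⟩, mem_univ _, rfl⟩
    · intro ω _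
      have h1 := Pool.Agent.H10.PerSL.map_es
        (rename Sum.inl : MvPolynomial ({ω : Ω // ω ≠ ω₀} × I) R →ₐ[R]
          MvPolynomial (({ω : Ω // ω ≠ ω₀} × I) ⊕ Unit) R).toRingHom
        (univ : Finset I) T.card (fun i => (X (ω, i) : MvPolynomial _ R))
      have h2 := Pool.Agent.H10.PerSL.map_es
        (aeval (th R ω₀ i₀ T) : MvPolynomial (Ω × I) R →ₐ[R]
          MvPolynomial (({ω : Ω // ω ≠ ω₀} × I) ⊕ Unit) R).toRingHom
        (univ : Finset I) T.card (fun i => (X ((ω : Ω), i) : MvPolynomial _ R))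
      change rename Sum.inl _ = _ at h1
      change aeval (th R ω₀ i₀ T) _ = _ at h2
      rw [h1, h2]
      congr 1
      funext i
      change rename Sum.inl (X (ω, i)) = aeval (th R ω₀ i₀ T) (X ((ω : Ω), i))
      rw [rename_X, aeval_X]
      simp [th, ω.2]
  · have h2 := Pool.Agent.H10.PerSL.map_es
      (aeval (th R ω₀ i₀ T) : MvPolynomial (Ω × I) R →ₐ[R]
        MvPolynomial (({ω : Ω // ω ≠ ω₀} × I) ⊕ Unit) R).toRingHom
      (univ : Finset I) T.card (fun i => (X (ω₀, i) : MvPolynomial _ R))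
    change aeval (th R ω₀ i₀ T) _ = _ at h2
    rw [h2]
    have h3 : (fun j => (aeval (th R ω₀ i₀ T) : MvPolynomial (Ω × I) R →ₐ[R]
        MvPolynomial (({ω : Ω // ω ≠ ω₀} × I) ⊕ Unit) R).toRingHom (X (ω₀, j))) =
        fun j => th R ω₀ i₀ T (ω₀, j) := by
      funext j
      exact aeval_X _ _
    rw [h3]
    exact es_th ω₀ hi

end sub

section tang

variable {K : Type u} [Field K] {τ : Type v} [Fintype τ] [DecidableEq τ]

/-- Critical points give tangent points of the graph. -/
theorem tang_graph (G : MvPolynomial τ K) {c b₀ : K} (hc : c ≠ 0) {x : τ → K}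
    (hx : ∀ t, eval x (pderiv t G) = b₀)
    (hdet : (Matrix.of fun i j => eval x (pderiv j (pderiv i G))).det ≠ 0) :
    Tang (C c * (rename Sum.inl G + X (Sum.inr ())) : MvPolynomial (τ ⊕ Unit) K)
      (Sum.elim (fun _ => b₀) fun _ => 1) (Sum.elim x fun _ => -eval x G) := by
  classical
  set P : τ ⊕ Unit → K := Sum.elim x fun _ => -eval x G with hP
  have hPx : (fun t => P (Sum.inl t)) = x := rfl
  have hform : (C c * (rename Sum.inl G + X (Sum.inr ())) : MvPolynomial (τ ⊕ Unit) K) =
      gp (C c * G) (-c) := by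
    rw [gp, map_mul, rename_C, map_neg]
    ring
  have hm : ∀ (f : MvPolynomial τ K) (t : τ), eval x (pderiv t (C c * f)) =
      c * eval x (pderiv t f) := by
    intro f t
    rw [Derivation.leibniz, pderiv_C, smul_zero, add_zero, smul_eq_mul, map_mul, eval_C]
  have hd : ∀ f : MvPolynomial τ K, ∀ (e : K) (t : τ),
      pderiv (Sum.inl t : τ ⊕ Unit) (gp f e) = gp (pderiv t f) 0 := by
    intro f e t
    rw [gp, gp, map_sub, Derivation.leibniz, pderiv_C, smul_zero, add_zero,
      pderiv_X_of_ne Sum.inr_ne_inl, smul_zero, sub_zero, pderiv_rename Sum.inl_injective, C_0,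
      zero_mul, sub_zero]
  have hd' : ∀ f : MvPolynomial τ K, ∀ (e : K) (u : Unit),
      pderiv (Sum.inr u : τ ⊕ Unit) (gp f e) = C (-e) := by
    intro f e u
    have h1 : pderiv (Sum.inr u : τ ⊕ Unit) (rename Sum.inl f) = 0 := by
      apply pderiv_eq_zero_of_notMem_vars
      intro h
      have := vars_rename (Sum.inl : τ → τ ⊕ Unit) f h
      rw [Finset.mem_image] at this
      obtain ⟨x, -, hx⟩ := this
      exact Sum.inl_ne_inr hx
    rw [gp, map_sub, h1, Derivation.leibniz, pderiv_C, smul_zero, add_zero, pderiv_X_self,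
      smul_eq_mul, mul_one, zero_sub, map_neg]
  rw [hform]
  refine ⟨?_, ⟨c, hc, ?_⟩, ?_⟩
  · rw [eval_gp, hPx, map_mul, eval_C]
    change c * eval x G - -c * -eval x G = 0
    ring
  · rintro (t | u)
    · rw [eval_pderiv_gp_inl, hPx, hm, hx, Sum.elim_inl]
    · rw [eval_pderiv_gp_inr, Sum.elim_inr]
      ring
  · intro v e hv1 hv2
    have h1 := hv2 (Sum.inr ())
    simp only [hd'] at h1
    simp only [pderiv_C, map_zero, mul_zero, Finset.sum_const_zero, Sum.elim_inr, mul_one] at h1
    have h2 : (fun t => v (Sum.inl t)) = 0 := by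
      by_contra hne
      apply hdet
      apply Matrix.exists_mulVec_eq_zero_iff.1
      refine ⟨_, hne, ?_⟩
      funext t
      have h3 := hv2 (Sum.inl t)
      simp only [hd, Fintype.sum_sum_type, eval_gp, hPx, eval_pderiv_gp_inr, neg_zero,
        mul_zero, Finset.sum_const_zero, add_zero, ← h1, zero_mul, sub_zero] at h3
      simp only [Matrix.mulVec, dotProduct, Matrix.of_apply, Pi.zero_apply]
      have h4 : ∑ j, v (Sum.inl j) * eval x (pderiv j (pderiv t (C c * G))) =
          c * ∑ j, eval x (pderiv j (pderiv t G)) * v (Sum.inl j) := by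
        rw [Finset.mul_sum]
        refine Finset.sum_congr rfl fun j _ => ?_
        have h5 : pderiv t (C c * G) = C c * pderiv t G := by
          rw [Derivation.leibniz, pderiv_C, smul_zero, add_zero, smul_eq_mul]
        rw [h5, hm]
        ring
      rw [h4] at h3
      exact (mul_eq_zero.1 h3).resolve_left hc
    have h3 : v (Sum.inr ()) = 0 := by
      simp only [Fintype.sum_sum_type, Sum.elim_inl, Sum.elim_inr, one_mul,
        Finset.univ_unique, Finset.sum_singleton] at hv1
      have h4 : ∀ t, v (Sum.inl t) = 0 := fun t => congrFun h2 t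
      simp only [h4, mul_zero, Finset.sum_const_zero, zero_add] at hv1
      exact hv1
    funext i
    rcases i with t | u
    · exact congrFun h2 t
    · exact h3

end tang

end Pool.Agent.H72.Dc
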