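import Pool.Agent.H72.Dc.Cor2
import Pool.Agent.H72.Dc.Asy3
import Pool.Agent.H72.Dc.Fin

/-!
# The determinantal complexity of the permanent, sharp form
-/

set_option autoImplicit false

namespace Pool.Agent.H72.Dc

open MvPolynomial Finset
open Pool.Agent.H10.PerSL (perPoly)
open Pool.Agent.H61.BD (DetLE BorderDetLE)

universe u

theorem border_pos {n : ℕ} (hn : 0 < n) {k : Type u} [Field k] {s : ℕ}
    (h : BorderDetLE (perPoly n k) s) : 1 ≤ s := by
  rcases Nat.eq_zero_or_pos s with rfl | hs
  · exfalso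
    obtain ⟨F, hF, A, -, hA⟩ := h
    have h1 : F = 1 := by rw [← hA, Matrix.det_fin_zero]
    have h2 : coeff 0 (perPoly n k) = 0 := by
      have : constantCoeff (perPoly n k) = 0 := by
        rw [perPoly, Matrix.permanent, map_sum]
        refine Finset.sum_eq_zero fun σ _ => ?_
        rw [map_prod]
        refine Finset.prod_eq_zero (mem_univ (⟨0, hn⟩ : Fin n)) ?_
        simp
      rw [constantCoeff_eq] at this
      exact this
    obtain ⟨P, Q, hQ, h3, h4⟩ := hF 0
    rw [h1, coeff_zero_one] at h3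
    rw [h2] at h4
    have hQ0 : algebraMap (Polynomial k) (RatFunc k) Q ≠ 0 := by
      intro h0
      rw [map_eq_zero_iff _ (RatFunc.algebraMap_injective k)] at h0
      rw [h0] at hQ
      simp at hQ
    rw [eq_div_iff hQ0, one_mul] at h3
    have h5 := RatFunc.algebraMap_injective k h3
    rw [← h5, div_self hQ] at h4
    exact zero_ne_one h4
  · exact hs

theorem final2 {n : ℕ} (hn : 2 ≤ n) (k : Type u) [Field k] [CharZero k] (s : ℕ)
    (hs : DetLE (perPoly n k) s ∨ BorderDetLE (perPoly n k) s) :
    n ^ 3 ≤ 10 ^ 7 * (Nat.log 2 n) ^ 3 * s := by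
  have hs' : BorderDetLE (perPoly n k) s := hs.elim DetLE.toBorder id
  refine asy3 hn (border_pos (by omega) hs') fun r d hr hd hrd hsz => ?_
  exact core2 hr hd hrd hsz k s hs'

end Pool.Agent.H72.Dc
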