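import Pool.Agent.H72.Dc.Fin

/-!
# The determinantal complexity of power sums
-/

set_option autoImplicit false

namespace Pool.Agent.H72.Dc

open MvPolynomial Finset
open Pool.Agent.H61.BD (DetLE BorderDetLE)

universe u

section pts

variable {K : Type u} [Field K] [CharZero K]

/-- The polynomial `∑ X_i ^ d / d`. -/
noncomputable def pw (m d : ℕ) (K : Type u) [Field K] : MvPolynomial (Fin m) K :=
  ∑ i, C ((d : K)⁻¹) * X i ^ d

theorem pderiv_pw {m d : ℕ} (hd : 0 < d) (t : Fin m) :
    pderiv t (pw m d K) = X t ^ (d - 1) := by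
  have hd' : (d : K) ≠ 0 := by exact_mod_cast hd.ne'
  rw [pw, map_sum, Finset.sum_eq_single t]
  · rw [Derivation.leibniz, pderiv_C, smul_zero, add_zero, Derivation.leibniz_pow,
      pderiv_X_self, smul_eq_mul, smul_eq_mul, mul_one, nsmul_eq_mul]
    have h1 : ((d : ℕ) : MvPolynomial (Fin m) K) = C ((d : ℕ) : K) := by simp
    rw [h1, ← mul_assoc, ← C_mul, inv_mul_cancel₀ hd', C_1, one_mul]
  · intro i _ hi
    rw [Derivation.leibniz, pderiv_C, smul_zero, add_zero, Derivation.leibniz_pow,
      pderiv_X_of_ne hi, smul_zero, smul_zero, smul_zero]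
  · intro h
    exact absurd (mem_univ t) h

theorem pderiv_pderiv_pw {m d : ℕ} (hd : 1 < d) (t j : Fin m) (x : Fin m → K) :
    eval x (pderiv j (pderiv t (pw m d K))) =
      if j = t then ((d - 1 : ℕ) : K) * x t ^ (d - 2) else 0 := by
  rw [pderiv_pw (by omega), Derivation.leibniz_pow]
  by_cases h : j = t
  · subst h
    rw [pderiv_X_self, if_pos rfl, smul_eq_mul, mul_one, nsmul_eq_mul, map_mul, map_pow, eval_X,
      map_natCast]
    congr 2
  · rw [pderiv_X_of_ne (Ne.symm h), if_neg h, smul_zero, smul_zero, map_zero]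

end pts

theorem pow_core {m d : ℕ} (hd : 1 < d) (k : Type u) [Field k] [CharZero k] (s : ℕ)
    (hs : BorderDetLE (psum (Fin (m + 2)) k d) s) :
    (d - 1) ^ m * (m + 1) ^ (m + 1) ≤ (11 * s) ^ (m + 1) := by
  classical
  have : CharZero (AlgebraicClosure k) := charZero_of_injective_algebraMap
    (algebraMap k (AlgebraicClosure k)).injective
  obtain ⟨ζ, hζ⟩ : ∃ ζ : AlgebraicClosure k, ζ ^ d = -1 :=
    IsAlgClosed.exists_pow_nat_eq _ (by omega)
  obtain ⟨ω, hω⟩ : ∃ ω : AlgebraicClosure k, IsPrimitiveRoot ω (d - 1) := by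
    have : NeZero (d - 1) := ⟨by omega⟩
    exact HasEnoughRootsOfUnity.exists_primitiveRoot _ _
  have hd0 : ((d : ℕ) : AlgebraicClosure k) ≠ 0 := by exact_mod_cast (by omega : d ≠ 0)
  -- the points
  let S : Finset (Fin m → AlgebraicClosure k) :=
    Fintype.piFinset fun _ => Polynomial.nthRootsFinset (d - 1) 1
  have hScard : S.card = (d - 1) ^ m := by
    simp only [S, Fintype.card_piFinset, Finset.prod_const, Finset.card_univ, Fintype.card_fin]
    rw [hω.card_nthRootsFinset]
  have hS : ∀ x ∈ S, ∀ t, x t ^ (d - 1) = 1 := by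
    intro x hx t
    exact (Polynomial.mem_nthRootsFinset (by omega : 0 < d - 1) 1).1
      ((Fintype.mem_piFinset.1 hx) t)
  let L' := AlgebraicClosure (FractionRing (PowerSeries (AlgebraicClosure k)))
  have hcz : CharZero (FractionRing (PowerSeries (AlgebraicClosure k))) :=
    charZero_of_injective_algebraMap (R := AlgebraicClosure k)
      (algebraMap (AlgebraicClosure k)
        (FractionRing (PowerSeries (AlgebraicClosure k)))).injective
  have hcz' : CharZero L' := charZero_of_injective_algebraMap
    (algebraMap (FractionRing (PowerSeries (AlgebraicClosure k))) L').injective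
  let ι := algebraMap (PowerSeries (AlgebraicClosure k)) L'
  have hinj : Function.Injective ι := by
    have h1 : ι = (algebraMap (FractionRing (PowerSeries (AlgebraicClosure k))) L').comp
        (algebraMap (PowerSeries (AlgebraicClosure k))
          (FractionRing (PowerSeries (AlgebraicClosure k)))) :=
      IsScalarTower.algebraMap_eq _ _ _
    have h2 : Function.Injective (algebraMap (PowerSeries (AlgebraicClosure k))
        (FractionRing (PowerSeries (AlgebraicClosure k)))) := IsFractionRing.injective _ _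
    have h3 : Function.Injective
        (algebraMap (FractionRing (PowerSeries (AlgebraicClosure k))) L') := RingHom.injective _
    rw [h1, RingHom.coe_comp]
    exact h3.comp h2
  -- the substitution
  let E : Fin (m + 2) → MvPolynomial (Fin m ⊕ Unit) (PowerSeries (AlgebraicClosure k)) := fun i =>
    if h : (i : ℕ) < m then C PowerSeries.X * X (Sum.inl ⟨i, h⟩)
    else if (i : ℕ) = m then C (PowerSeries.C ζ)
    else 1 + C (PowerSeries.X ^ d) * X (Sum.inr ())
  have hE : ∀ i, (E i).totalDegree ≤ 1 := by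
    intro i
    simp only [E]
    split_ifs
    · refine (totalDegree_mul _ _).trans ?_
      rw [totalDegree_C, totalDegree_X]
    · rw [totalDegree_C]
      exact Nat.zero_le _
    · refine (totalDegree_add _ _).trans (max_le ?_ ?_)
      · rw [totalDegree_one]
        exact Nat.zero_le _
      · refine (totalDegree_mul _ _).trans ?_
        rw [totalDegree_C, totalDegree_X]
  obtain ⟨M, G', hM, hB⟩ := det_border_subst (L := L') hinj hs (e := d + 1) (by omega) E hE
  -- the binomial expansion
  obtain ⟨W, hW⟩ : ∃ W : MvPolynomial (Fin m ⊕ Unit) (PowerSeries (AlgebraicClosure k)),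
      (1 + C (PowerSeries.X ^ d) * X (Sum.inr ())) ^ d =
        1 + C (PowerSeries.X ^ d) * (C (PowerSeries.C ((d : ℕ) : AlgebraicClosure k)) *
          X (Sum.inr ())) + C (PowerSeries.X ^ (d + 1)) * W := by
    obtain ⟨Q, hQ⟩ := Polynomial.binomExpansion (Polynomial.X ^ d)
      (1 : MvPolynomial (Fin m ⊕ Unit) (PowerSeries (AlgebraicClosure k)))
      (C (PowerSeries.X ^ d) * X (Sum.inr ()))
    refine ⟨C (PowerSeries.X ^ (d - 1)) * (Q * X (Sum.inr ()) ^ 2), ?_⟩
    simp only [Polynomial.eval_pow, Polynomial.eval_X, one_pow, Polynomial.derivative_X_pow,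
      Polynomial.eval_mul, Polynomial.eval_C, mul_one] at hQ
    rw [hQ]
    have h1 : (C (PowerSeries.X ^ (d + 1)) : MvPolynomial (Fin m ⊕ Unit)
        (PowerSeries (AlgebraicClosure k))) * (C (PowerSeries.X ^ (d - 1)) *
          (Q * X (Sum.inr ()) ^ 2)) = Q * (C (PowerSeries.X ^ d) * X (Sum.inr ())) ^ 2 := by
      rw [← mul_assoc, ← C_mul, ← pow_add, mul_pow, ← C_pow, ← pow_mul]
      have h2 : d + 1 + (d - 1) = d * 2 := by omega
      rw [h2]
      ring
    rw [h1]
    have h3 : (C (PowerSeries.C ((d : ℕ) : AlgebraicClosure k)) : MvPolynomial (Fin m ⊕ Unit)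
        (PowerSeries (AlgebraicClosure k))) = ((d : ℕ) : MvPolynomial (Fin m ⊕ Unit)
        (PowerSeries (AlgebraicClosure k))) := by
      rw [map_natCast, map_natCast]
    rw [h3]
    ring
  let Φ : MvPolynomial (Fin m ⊕ Unit) (PowerSeries (AlgebraicClosure k)) :=
    C (PowerSeries.C ((d : ℕ) : AlgebraicClosure k)) *
      (rename Sum.inl (map (PowerSeries.C (R := AlgebraicClosure k))
        (pw m d (AlgebraicClosure k))) + X (Sum.inr ())) + C PowerSeries.X * (W + G')
  have hev : eval₂ ((C : PowerSeries (AlgebraicClosure k) →+* _).comp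
      ((PowerSeries.C (R := AlgebraicClosure k)).comp (algebraMap k (AlgebraicClosure k)))) E
      (psum (Fin (m + 2)) k d) + C (PowerSeries.X ^ (d + 1)) * G' =
      C (PowerSeries.X ^ d) * Φ := by
    have h1 : eval₂ ((C : PowerSeries (AlgebraicClosure k) →+* _).comp
        ((PowerSeries.C (R := AlgebraicClosure k)).comp (algebraMap k (AlgebraicClosure k)))) E
        (psum (Fin (m + 2)) k d) = ∑ i, E i ^ d := by
      rw [psum, eval₂_sum]
      refine Finset.sum_congr rfl fun i _ => ?_
      rw [eval₂_pow, eval₂_X]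
    rw [h1, Fin.sum_univ_castSucc, Fin.sum_univ_castSucc]
    have e1 : ∀ i : Fin m, E i.castSucc.castSucc = C PowerSeries.X * X (Sum.inl i) := by
      intro i
      have : ((i.castSucc.castSucc : Fin (m + 2)) : ℕ) < m := i.2
      simp only [E]
      rw [dif_pos this]
      rfl
    have e2 : E (Fin.last m).castSucc = C (PowerSeries.C ζ) := by
      have h2 : (((Fin.last m).castSucc : Fin (m + 2)) : ℕ) = m := rfl
      simp only [E]
      rw [dif_neg (by rw [h2]; omega), if_pos h2]
    have e3 : E (Fin.last (m + 1)) = 1 + C (PowerSeries.X ^ d) * X (Sum.inr ()) := by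
      have h2 : ((Fin.last (m + 1) : Fin (m + 2)) : ℕ) = m + 1 := rfl
      simp only [E]
      rw [dif_neg (by rw [h2]; omega), if_neg (by rw [h2]; omega)]
    rw [Finset.sum_congr rfl fun i _ => by rw [e1 i], e2, e3, hW, ← C_pow, ← map_pow, hζ]
    have e4 : (rename Sum.inl (map (PowerSeries.C (R := AlgebraicClosure k))
        (pw m d (AlgebraicClosure k))) : MvPolynomial (Fin m ⊕ Unit)
          (PowerSeries (AlgebraicClosure k))) = ∑ i : Fin m,
          C (PowerSeries.C (((d : ℕ) : AlgebraicClosure k)⁻¹)) *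
            (X (Sum.inl i : Fin m ⊕ Unit)) ^ d := by
      rw [pw, map_sum, map_sum]
      refine Finset.sum_congr rfl fun i _ => ?_
      simp only [map_mul, map_pow, map_C, map_X, rename_C, rename_X]
    have e5 : (C (PowerSeries.C ((d : ℕ) : AlgebraicClosure k)) : MvPolynomial (Fin m ⊕ Unit)
          (PowerSeries (AlgebraicClosure k))) *
        (∑ i : Fin m, C (PowerSeries.C (((d : ℕ) : AlgebraicClosure k)⁻¹)) *
            (X (Sum.inl i : Fin m ⊕ Unit)) ^ d) = ∑ i : Fin m,
              (X (Sum.inl i : Fin m ⊕ Unit)) ^ d := by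
      rw [Finset.mul_sum]
      refine Finset.sum_congr rfl fun i _ => ?_
      rw [← mul_assoc, ← C_mul, ← map_mul, mul_inv_cancel₀ hd0, map_one, C_1, one_mul]
    have e6 : ∑ i : Fin m, ((C PowerSeries.X : MvPolynomial (Fin m ⊕ Unit)
          (PowerSeries (AlgebraicClosure k))) * X (Sum.inl i : Fin m ⊕ Unit)) ^ d =
        C (PowerSeries.X ^ d) * ∑ i : Fin m, (X (Sum.inl i : Fin m ⊕ Unit)) ^ d := by
      rw [Finset.mul_sum]
      refine Finset.sum_congr rfl fun i _ => ?_
      rw [mul_pow, C_pow]
    rw [e6]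
    simp only [Φ]
    rw [mul_add (C (PowerSeries.C ((d : ℕ) : AlgebraicClosure k))), e4, e5, pow_succ, C_mul,
      map_neg, map_neg, map_one, C_1]
    ring
  have hΦ : M.det = C (ι (PowerSeries.X ^ d)) * map ι Φ := by
    rw [hB, hev, map_mul, map_C]
  have h3 : ι (PowerSeries.X ^ d) ≠ 0 := by
    rw [Ne, map_eq_zero_iff ι hinj]
    exact pow_ne_zero _ PowerSeries.X_ne_zero
  have hred : map (PowerSeries.constantCoeff (R := AlgebraicClosure k)) Φ =
      C ((d : ℕ) : AlgebraicClosure k) *
        (rename Sum.inl (pw m d (AlgebraicClosure k)) + X (Sum.inr ())) := by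
    simp only [Φ, map_add, map_mul, map_C, map_X, map_rename, PowerSeries.constantCoeff_C,
      PowerSeries.constantCoeff_X, C_0, zero_mul, add_zero]
    rw [MvPolynomial.map_map]
    have : (PowerSeries.constantCoeff (R := AlgebraicClosure k)).comp
        (PowerSeries.C (R := AlgebraicClosure k)) = RingHom.id _ := by
      ext a; simp
    rw [this, MvPolynomial.map_id]
  let pt : (Fin m → AlgebraicClosure k) → (Fin m ⊕ Unit → AlgebraicClosure k) :=
    fun x => Sum.elim x fun _ => -eval x (pw m d (AlgebraicClosure k))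
  have hptinj : Function.Injective pt := by
    intro x x' hxx
    funext t
    exact congrFun hxx (Sum.inl t)
  have hb := class_lift hinj M hM Φ h3 hΦ (b := Sum.elim (fun _ => 1) fun _ => 1) (by
    intro h0
    have := congrFun h0 (Sum.inr ())
    exact one_ne_zero this) (S.image pt) (by
    intro z hz
    obtain ⟨x, hx, rfl⟩ := Finset.mem_image.1 hz
    rw [hred]
    refine tang_graph _ hd0 ?_ ?_
    · intro t
      rw [pderiv_pw (by omega), map_pow, eval_X, hS x hx t]
    · have h1 : (Matrix.of fun i j => eval x (pderiv j (pderiv i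
          (pw m d (AlgebraicClosure k))))) =
          Matrix.diagonal fun t => ((d - 1 : ℕ) : AlgebraicClosure k) * x t ^ (d - 2) := by
        ext i j
        rw [Matrix.of_apply, pderiv_pderiv_pw hd, Matrix.diagonal_apply]
        by_cases h : i = j
        · rw [if_pos h.symm, if_pos h]
        · rw [if_neg (Ne.symm h), if_neg h]
      rw [h1, Matrix.det_diagonal]
      refine Finset.prod_ne_zero_iff.2 fun t _ => mul_ne_zero ?_ (pow_ne_zero _ ?_)
      · exact_mod_cast (by omega : d - 1 ≠ 0)
      · intro h0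
        have := hS x hx t
        rw [h0, zero_pow (by omega)] at this
        exact zero_ne_one this)
  rw [Finset.card_image_of_injective _ hptinj, hScard, Fintype.card_sum, Fintype.card_fin,
    Fintype.card_unit] at hb
  exact hb

theorem pow_final {N d : ℕ} (hN : 2 ≤ N) (hd : d - 1 ≤ 2 ^ (N - 1)) (k : Type u) [Field k]
    [CharZero k] (s : ℕ) (hs : DetLE (psum (Fin N) k d) s ∨ BorderDetLE (psum (Fin N) k d) s) :
    (N - 1) * (d - 1) ≤ 22 * s := by
  obtain ⟨m, rfl⟩ := Nat.exists_eq_add_of_le' hN
  rcases Nat.lt_or_ge 1 d with h1 | h1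
  · have h2 := pow_core h1 k s (hs.elim DetLE.toBorder id)
    have e : m + 2 - 1 = m + 1 := by omega
    rw [e] at hd ⊢
    have h3 : ((m + 1) * (d - 1)) ^ (m + 1) ≤ (22 * s) ^ (m + 1) := by
      calc ((m + 1) * (d - 1)) ^ (m + 1) = (d - 1) * ((d - 1) ^ m * (m + 1) ^ (m + 1)) := by
            rw [mul_pow, pow_succ (d - 1) m]
            ring
        _ ≤ 2 ^ (m + 1) * (11 * s) ^ (m + 1) := Nat.mul_le_mul hd h2
        _ = (22 * s) ^ (m + 1) := by
            rw [← mul_pow]
            congr 1
            ring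
    exact (Nat.pow_le_pow_iff_left (by omega)).1 h3
  · have : d - 1 = 0 := by omega
    rw [this, mul_zero]
    exact Nat.zero_le _

end Pool.Agent.H72.Dc
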