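import Pool.Agent.H72.Dc.WBez
import Pool.Agent.H72.Dc.Adj

/-!
# The degree of the dual of a determinantal hypersurface
-/

set_option autoImplicit false

namespace Pool.Agent.H72.Dc

open MvPolynomial Finset

universe u v

section dir

variable {K : Type u} [Field K] {κ : Type v} [Fintype κ] [DecidableEq κ]

/-- The derivation in the direction `v`. -/
noncomputable def dirD (v : κ → K) : Derivation K (MvPolynomial κ K) (MvPolynomial κ K) :=
  ∑ j, (C (v j) : MvPolynomial κ K) • pderiv j

theorem dirD_apply (v : κ → K) (f : MvPolynomial κ K) :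
    dirD v f = ∑ j, C (v j) * pderiv j f := by
  rw [dirD]
  have : ∀ (s : Finset κ), (∑ j ∈ s, (C (v j) : MvPolynomial κ K) • pderiv (R := K) j) f =
      ∑ j ∈ s, C (v j) * pderiv j f := by
    intro s
    induction s using Finset.induction_on with
    | empty => simp
    | insert a s ha ih =>
      rw [Finset.sum_insert ha, Finset.sum_insert ha, Derivation.add_apply, ih]
      rfl
  exact this univ

theorem eval_dirD (v P : κ → K) (f : MvPolynomial κ K) :
    eval P (dirD v f) = ∑ j, v j * eval P (pderiv j f) := by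
  rw [dirD_apply, map_sum]
  refine Finset.sum_congr rfl fun j _ => ?_
  rw [map_mul, eval_C]

theorem dirD_X (v : κ → K) (i : κ) : dirD v (X i) = C (v i) := by
  rw [dirD_apply, Finset.sum_eq_single i]
  · rw [pderiv_X_self, mul_one]
  · intro j _ hj
    rw [pderiv_X_of_ne hj.symm, mul_zero]
  · intro h
    exact absurd (mem_univ i) h

theorem dirD_C (v : κ → K) (a : K) : dirD v (C a) = 0 := by
  rw [dirD_apply]
  simp

theorem dirD_zero (f : MvPolynomial κ K) : dirD (0 : κ → K) f = 0 := by
  rw [dirD_apply]
  simp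

theorem dirD_rename {ν : Type*} [Fintype ν] [DecidableEq ν] (v : κ ⊕ ν → K)
    (f : MvPolynomial κ K) :
    dirD v (rename Sum.inl f) = rename Sum.inl (dirD (fun i => v (Sum.inl i)) f) := by
  induction f using MvPolynomial.induction_on with
  | C a => rw [rename_C, dirD_C, dirD_C, map_zero]
  | add p q hp hq => rw [map_add, map_add, hp, hq, map_add, map_add]
  | mul_X p i hp =>
    rw [map_mul, Derivation.leibniz, Derivation.leibniz, hp, rename_X, dirD_X, dirD_X]
    simp only [smul_eq_mul, map_add, map_mul, rename_X, rename_C]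

omit [Fintype κ] [DecidableEq κ] in
theorem pderiv_of_deg {p : MvPolynomial κ K} (hp : p.totalDegree ≤ 1) (t : κ) :
    pderiv t p = C (eval 0 (pderiv t p)) := by
  classical
  have h1 : ∃ c, pderiv t p = C c := by
    rw [p.as_sum, map_sum]
    have : ∀ m ∈ p.support, ∃ c, pderiv t (monomial m (coeff m p)) = C c := by
      intro m hm
      rw [pderiv_monomial]
      by_cases hmt : m t = 0
      · exact ⟨0, by rw [hmt]; simp⟩
      · refine ⟨coeff m p * (m t : K), ?_⟩
        have h2 : (m.sum fun _ n => n) ≤ 1 := (le_totalDegree hm).trans hp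
        have h3 : m - Finsupp.single t 1 = 0 := by
          ext i
          rw [Finsupp.tsub_apply, Finsupp.zero_apply]
          by_cases hi : i = t
          · subst hi
            rw [Finsupp.single_eq_same]
            have h4 : m i ≤ m.sum fun _ n => n := by
              rw [Finsupp.sum]
              exact Finset.single_le_sum (f := fun i => m i) (fun _ _ => Nat.zero_le _)
                (Finsupp.mem_support_iff.2 hmt)
            omega
          · rw [Finsupp.single_eq_of_ne hi, Nat.sub_zero]
            by_contra h5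
            have h6 : m t + m i ≤ m.sum fun _ n => n := by
              rw [Finsupp.sum, ← Finset.add_sum_erase _ _ (Finsupp.mem_support_iff.2 hmt)]
              refine Nat.add_le_add_left ?_ _
              exact Finset.single_le_sum (f := fun i => m i) (fun _ _ => Nat.zero_le _)
                (Finset.mem_erase.2 ⟨hi, Finsupp.mem_support_iff.2 h5⟩)
            omega
        rw [h3]
        rfl
    choose! c hc using this
    exact ⟨∑ m ∈ p.support, c m, by rw [Finset.sum_congr rfl hc, map_sum]⟩
  obtain ⟨c, hc⟩ := h1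
  rw [hc, eval_C]

omit [Fintype κ] [DecidableEq κ] in
theorem totalDegree_aeval_le {ν : Type*} (g : κ → MvPolynomial ν K) (D : ℕ)
    (hg : ∀ i, (g i).totalDegree ≤ D) (P : MvPolynomial κ K) :
    (aeval g P).totalDegree ≤ P.totalDegree * D := by
  rw [aeval_def, eval₂_eq]
  refine (totalDegree_finsetSum _ _).trans (Finset.sup_le fun m hm => ?_)
  refine (totalDegree_mul _ _).trans ?_
  have h0 : (algebraMap K (MvPolynomial ν K) (coeff m P)).totalDegree = 0 := totalDegree_C _
  rw [h0, zero_add]
  refine (totalDegree_finsetProd _ _).trans ?_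
  refine le_trans ?_ (Nat.mul_le_mul_right _ (le_totalDegree hm))
  rw [Finsupp.sum, Finset.sum_mul]
  refine Finset.sum_le_sum fun i _ => ?_
  refine (totalDegree_pow _ _).trans ?_
  exact Nat.mul_le_mul_left _ (hg i)

end dir

section sys

variable {K : Type u} [Field K] {τ : Type v} [Fintype τ] [DecidableEq τ] {s : ℕ}

/-- the variables of the system -/
abbrev Vr (τ : Type v) (s : ℕ) : Type v := τ ⊕ (Fin s ⊕ (Fin s ⊕ Unit))

/-- the kernel vector system -/
noncomputable def sysf (M : Matrix (Fin s) (Fin s) (MvPolynomial τ K)) (a : Fin s → K)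
    (b : τ → K) : Vr τ s → MvPolynomial (Vr τ s) K
  | Sum.inl t => ∑ i, ∑ j, X (Sum.inr (Sum.inr (Sum.inl i))) *
      C (eval 0 (pderiv t (M i j))) * X (Sum.inr (Sum.inl j)) - C (b t)
  | Sum.inr (Sum.inl i) => ∑ j, rename Sum.inl (M i j) * X (Sum.inr (Sum.inl j))
  | Sum.inr (Sum.inr (Sum.inl j)) =>
      ∑ i, X (Sum.inr (Sum.inr (Sum.inl i))) * rename Sum.inl (M i j) -
        C (a j) * X (Sum.inr (Sum.inr (Sum.inr ())))
  | Sum.inr (Sum.inr (Sum.inr _)) => ∑ j, C (a j) * X (Sum.inr (Sum.inl j)) - 1

/-- the weights -/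
def sysw (τ : Type v) [Fintype τ] (s : ℕ) : Vr τ s → ℕ
  | Sum.inl _ => Fintype.card τ
  | Sum.inr _ => 2 * s

/-- the weighted degrees -/
def sysd (τ : Type v) [Fintype τ] (s : ℕ) : Vr τ s → ℕ
  | Sum.inl _ => 4 * s
  | Sum.inr (Sum.inl _) => Fintype.card τ + 2 * s
  | Sum.inr (Sum.inr (Sum.inl _)) => Fintype.card τ + 2 * s
  | Sum.inr (Sum.inr (Sum.inr _)) => 2 * s

omit [DecidableEq τ] in
theorem wsub_X_deg (c : Vr τ s → K) (i : Vr τ s) :
    (wsub (sysw τ s) c (X i)).totalDegree ≤ sysw τ s i := by
  rw [wsub, aeval_X]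
  refine (totalDegree_add _ _).trans (max_le ?_ ?_)
  · refine (totalDegree_pow _ _).trans ?_
    rw [totalDegree_X, mul_one]
  · rw [totalDegree_C]
    exact Nat.zero_le _

omit [Fintype τ] [DecidableEq τ] in
theorem wsub_C_deg (w : Vr τ s → ℕ) (c : Vr τ s → K) (a : K) :
    (wsub w c (C a)).totalDegree = 0 := by
  rw [wsub, aeval_C]
  exact totalDegree_C _

omit [DecidableEq τ] in
theorem wsub_rename_deg (c : Vr τ s → K) {p : MvPolynomial τ K} (hp : p.totalDegree ≤ 1) :
    (wsub (sysw τ s) c (rename Sum.inl p)).totalDegree ≤ Fintype.card τ := by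
  rw [wsub, aeval_rename]
  refine (totalDegree_aeval_le _ (Fintype.card τ) ?_ p).trans ?_
  · intro t
    have := wsub_X_deg c (Sum.inl t)
    rw [wsub, aeval_X] at this
    exact this
  · calc p.totalDegree * Fintype.card τ ≤ 1 * Fintype.card τ := Nat.mul_le_mul_right _ hp
      _ = Fintype.card τ := one_mul _

omit [Fintype τ] [DecidableEq τ] in
theorem totalDegree_sum_le' {ι : Type*} (t : Finset ι) (f : ι → MvPolynomial τ K) (D : ℕ)
    (h : ∀ i ∈ t, (f i).totalDegree ≤ D) : (∑ i ∈ t, f i).totalDegree ≤ D :=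
  (totalDegree_finsetSum _ _).trans (Finset.sup_le h)

omit [DecidableEq τ] in
theorem sysf_deg (M : Matrix (Fin s) (Fin s) (MvPolynomial τ K))
    (hM : ∀ i j, (M i j).totalDegree ≤ 1) (a : Fin s → K) (b : τ → K) (i : Vr τ s)
    (c : Vr τ s → K) : (wsub (sysw τ s) c (sysf M a b i)).totalDegree ≤ sysd τ s i := by
  rcases i with t | i | j | u
  · simp only [sysf, sysd, map_sub, map_sum, map_mul]
    refine (totalDegree_sub _ _).trans (max_le ?_ ?_)
    · refine totalDegree_sum_le' _ _ _ fun i _ => totalDegree_sum_le' _ _ _ fun j _ => ?_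
      refine (totalDegree_mul _ _).trans ?_
      refine (Nat.add_le_add ((totalDegree_mul _ _).trans
        (Nat.add_le_add (wsub_X_deg c _) (wsub_C_deg _ c _).le)) (wsub_X_deg c _)).trans ?_
      simp only [sysw]
      omega
    · rw [wsub_C_deg]
      exact Nat.zero_le _
  · simp only [sysf, sysd, map_sum, map_mul]
    refine totalDegree_sum_le' _ _ _ fun j _ => ?_
    refine (totalDegree_mul _ _).trans ?_
    exact Nat.add_le_add (wsub_rename_deg c (hM _ _)) (wsub_X_deg c _)
  · simp only [sysf, sysd, map_sub, map_sum, map_mul]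
    refine (totalDegree_sub _ _).trans (max_le ?_ ?_)
    · refine totalDegree_sum_le' _ _ _ fun j _ => ?_
      refine (totalDegree_mul _ _).trans ?_
      refine (Nat.add_le_add (wsub_X_deg c _) (wsub_rename_deg c (hM _ _))).trans ?_
      simp only [sysw]
      omega
    · refine (totalDegree_mul _ _).trans ?_
      refine (Nat.add_le_add (wsub_C_deg _ c _).le (wsub_X_deg c _)).trans ?_
      simp only [sysw]
      omega
  · simp only [sysf, sysd, map_sub, map_sum, map_mul, map_one]
    refine (totalDegree_sub _ _).trans (max_le ?_ ?_)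
    · refine totalDegree_sum_le' _ _ _ fun j _ => ?_
      refine (totalDegree_mul _ _).trans ?_
      refine (Nat.add_le_add (wsub_C_deg _ c _).le (wsub_X_deg c _)).trans ?_
      simp only [sysw]
      omega
    · rw [totalDegree_one]
      exact Nat.zero_le _

end sys

end Pool.Agent.H72.Dc
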