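import Pool.Agent.H10.PerSL.Bezout
import Mathlib.RingTheory.Polynomial.Cyclotomic.Roots

/-!
# A weighted Bezout bound for nondegenerate zeros
-/

set_option autoImplicit false

namespace Pool.Agent.H72.Dc

open MvPolynomial Finset
open Pool.Agent.H10.PerSL (bezout)

universe u v

section chain

variable {K : Type u} [Field K] {κ : Type v} [Fintype κ] [DecidableEq κ]

/-- Substituting `Y ^ w + c` for the variables. -/
noncomputable def wsub (w : κ → ℕ) (c : κ → K) : MvPolynomial κ K →ₐ[K] MvPolynomial κ K :=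
  aeval fun v => X v ^ w v + C (c v)

omit [Fintype κ] [DecidableEq κ] in
theorem eval_wsub (w : κ → ℕ) (c : κ → K) (y : κ → K) (f : MvPolynomial κ K) :
    eval y (wsub w c f) = eval (fun v => y v ^ w v + c v) f := by
  induction f using MvPolynomial.induction_on with
  | C a => simp [wsub]
  | add p q hp hq => rw [map_add, map_add, hp, hq, map_add]
  | mul_X p i hp =>
    rw [map_mul, map_mul, hp, map_mul, eval_X]
    congr 1
    simp [wsub]

omit [Fintype κ] in
theorem pderiv_wsub (w : κ → ℕ) (c : κ → K) (j : κ) (f : MvPolynomial κ K) :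
    pderiv j (wsub w c f) = wsub w c (pderiv j f) * (C (w j : K) * X j ^ (w j - 1)) := by
  induction f using MvPolynomial.induction_on with
  | C a => simp [wsub]
  | add p q hp hq => rw [map_add, map_add, hp, hq, map_add, map_add]; ring
  | mul_X p i hp =>
    rw [map_mul, Derivation.leibniz, Derivation.leibniz, hp]
    have h1 : wsub w c (X i) = X i ^ w i + C (c i) := by simp [wsub]
    rw [h1]
    simp only [smul_eq_mul, map_add, map_mul, h1, pderiv_C, add_zero]
    by_cases h : i = j
    · subst h
      rw [Derivation.leibniz_pow, pderiv_X_self]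
      simp only [smul_eq_mul, mul_one, map_one, nsmul_eq_mul]
      have : ((w i : ℕ) : MvPolynomial κ K) = C ((w i : ℕ) : K) := by simp
      rw [this]
      ring
    · rw [Derivation.leibniz_pow, pderiv_X_of_ne h]
      simp only [smul_zero, mul_zero, map_zero, zero_add]
      ring

theorem wbezout [IsAlgClosed K] [CharZero K] (f : κ → MvPolynomial κ K) (w d : κ → ℕ)
    (hw : ∀ i, 1 ≤ w i) (hd : ∀ i, 1 ≤ d i)
    (hf : ∀ i, ∀ c : κ → K, (wsub w c (f i)).totalDegree ≤ d i) (S : Finset (κ → K))
    (hS : ∀ p ∈ S, (∀ i, eval p (f i) = 0) ∧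
      (Matrix.of fun i j => eval p (pderiv j (f i))).det ≠ 0) :
    S.card * ∏ i, w i ≤ ∏ i, d i := by
  classical
  -- the translation
  have hc : ∀ v : κ, ∃ c : K, c ∉ S.image (fun p => p v) := fun v =>
    Infinite.exists_notMem_finset _
  choose c hc using hc
  have hne : ∀ p ∈ S, ∀ v, p v - c v ≠ 0 := by
    intro p hp v h
    apply hc v
    rw [Finset.mem_image]
    exact ⟨p, hp, sub_eq_zero.1 h⟩
  have hprim : ∀ N : ℕ, 0 < N → ∃ ζ : K, IsPrimitiveRoot ζ N := by
    intro N hN
    have : NeZero N := ⟨hN.ne'⟩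
    have : NeZero (N : K) := ⟨by exact_mod_cast hN.ne'⟩
    exact HasEnoughRootsOfUnity.exists_primitiveRoot _ _
  -- the roots
  let T : (κ → K) → Finset (κ → K) := fun p =>
    Fintype.piFinset fun v => (Polynomial.nthRoots (w v) (p v - c v)).toFinset
  have hT : ∀ p y, y ∈ T p ↔ ∀ v, y v ^ w v = p v - c v := by
    intro p y
    simp only [T, Fintype.mem_piFinset, Multiset.mem_toFinset]
    exact forall_congr' fun v => Polynomial.mem_nthRoots (hw v)
  have hTc : ∀ p ∈ S, (T p).card = ∏ i, w i := by
    intro p hp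
    simp only [T, Fintype.card_piFinset]
    refine Finset.prod_congr rfl fun v _ => ?_
    obtain ⟨ζ, hζ⟩ := hprim (w v) (hw v)
    rw [Multiset.toFinset_card_of_nodup (hζ.nthRoots_nodup (hne p hp v)), hζ.card_nthRoots,
      if_pos]
    exact IsAlgClosed.exists_pow_nat_eq _ (hw v)
  have hdisj : (S : Set (κ → K)).PairwiseDisjoint T := by
    intro p hp p' hp' hpp'
    rw [Function.onFun, Finset.disjoint_left]
    intro y hy hy'
    apply hpp'
    funext v
    have h1 := (hT p y).1 hy v
    have h2 := (hT p' y).1 hy' v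
    rw [h1] at h2
    exact sub_left_injective h2
  have hcard : (S.biUnion T).card = S.card * ∏ i, w i := by
    rw [Finset.card_biUnion hdisj, Finset.sum_congr rfl hTc, Finset.sum_const, smul_eq_mul]
  rw [← hcard]
  refine bezout (fun i => wsub w c (f i)) d hd (fun i => hf i c) _ ?_
  intro y hy
  obtain ⟨p, hp, hyp⟩ := Finset.mem_biUnion.1 hy
  have hy1 : (fun v => y v ^ w v + c v) = p := by
    funext v
    rw [(hT p y).1 hyp v]
    ring
  have hy0 : ∀ v, y v ≠ 0 := by
    intro v h
    have h1 := (hT p y).1 hyp v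
    rw [h, zero_pow (by have := hw v; omega)] at h1
    exact hne p hp v h1.symm
  refine ⟨fun i => by rw [eval_wsub, hy1]; exact (hS p hp).1 i, ?_⟩
  have h1 : (Matrix.of fun i j => eval y (pderiv j (wsub w c (f i)))) =
      (Matrix.of fun i j => eval p (pderiv j (f i))) *
        Matrix.diagonal fun j => (w j : K) * y j ^ (w j - 1) := by
    ext i j
    rw [Matrix.mul_diagonal, Matrix.of_apply, Matrix.of_apply, pderiv_wsub, map_mul, eval_wsub,
      hy1]
    simp
  rw [h1, Matrix.det_mul, Matrix.det_diagonal]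
  refine mul_ne_zero (hS p hp).2 (Finset.prod_ne_zero_iff.2 fun j _ => ?_)
  refine mul_ne_zero ?_ (pow_ne_zero _ (hy0 j))
  have := hw j
  exact_mod_cast (by omega : w j ≠ 0)

end chain

end Pool.Agent.H72.Dc
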